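import Pool.Agent.Lib.MP_c1e359_an.Rep

/-!
Finite subsets of canonical index sets and the spaces of bounded and of null functions.
-/

namespace Pool.Agent.Lib.MP_c1e359_an

open Pool.Agent.Lib.MP_5d9fac_lc Filter

variable {B : Type} [CompleteBooleanAlgebra B]

/-- a name for a set of the ground universe -/
structure Ix (q : B) (ι : Type) where
  A : Name B
  e : ι → Name B
  mem : ∀ (W : Pt q) i, Mem W.1 (cl W.1 (e i)) (cl W.1 A)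
  inj : ∀ (W : Pt q) i j, cl W.1 (e i) = cl W.1 (e j) → i = j
  gen : ∀ n, ∀ᶠ W in gen q, Mem W.1 (cl W.1 n) (cl W.1 A) → ∃ i, cl W.1 n = cl W.1 (e i)

theorem Ix.ind {q : B} {ι : Type} (X : Ix q ι) (Q : ∀ W : Pt q, Mod W.1 → Prop)
    [∀ n : Name B, Cl fun W => Q W (cl W.1 n)] (H : ∀ i W, Q W (cl W.1 (X.e i))) (W : Pt q)
    (z : Mod W.1) (hz : Mem W.1 z (cl W.1 X.A)) : Q W z := by
  obtain ⟨n, rfl⟩ := cl_surj W.1 z
  refine of_gen (fun W => Mem W.1 (cl W.1 n) (cl W.1 X.A) → Q W (cl W.1 n)) ?_ W hz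
  filter_upwards [X.gen n] with W h1 h2
  obtain ⟨i, h3⟩ := h1 h2
  rw [h3]
  exact H i W

theorem gen_ord {q : B} (o : Ordinal.{0}) (n : Name B) : ∀ᶠ W in gen q,
    Mem W.1 (cl W.1 n) (cl W.1 (ordN o)) → ∃ a < o, cl W.1 n = cl W.1 (ordN a) := by
  rw [ordN.eq_1 o]
  filter_upwards [gen_mem n (Name.mk (Shrink.{0} (Set.Iio o))
    (fun i => ordN ((equivShrink (Set.Iio o)).symm i).1) fun _ => ⊤)] with W h1 h2
  obtain ⟨i, -, h3⟩ := h1 h2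
  exact ⟨_, ((equivShrink (Set.Iio o)).symm i).2, h3⟩

/-- the natural numbers -/
noncomputable def ixN (q : B) : Ix q ℕ where
  A := ordN Ordinal.omega0
  e k := ordN k
  mem W k := ordN_mem (Ordinal.natCast_lt_omega0 k) W.1
  inj W i j h := by exact_mod_cast ordN_inj h
  gen n := by
    filter_upwards [gen_ord Ordinal.omega0 n] with W h1 h2
    obtain ⟨a, ha, h3⟩ := h1 h2
    obtain ⟨k, rfl⟩ := Ordinal.lt_omega0.1 ha
    exact ⟨k, h3⟩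

/-- an ordinal -/
noncomputable def ixO (q : B) (o : Ordinal.{0}) : Ix q o.ToType where
  A := ordN o
  e := oN
  mem W i := oN_mem i W.1
  inj _ _ _ h := oN_inj h
  gen n := by
    filter_upwards [gen_ord o n] with W h1 h2
    obtain ⟨a, ha, h3⟩ := h1 h2
    exact ⟨Ordinal.ToType.mk ⟨a, ha⟩, by simpa [oN] using h3⟩

theorem mem_mk_fin {α : Type} [Finite α] {A : α → Name B} {v : α → B} {U : Ult B} {z : Mod U}
    (hz : Mem U z (cl U (Name.mk α A v))) : ∃ i, z = cl U (A i) := by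
  obtain ⟨n, rfl⟩ := cl_surj U z
  have : Finite (Name.mk α A v).Idx := ‹Finite α›
  obtain ⟨i, hi⟩ := U.iSup_finite ((mem_cl U _ _).1 hz)
  exact ⟨i, (cl_eq _ _ _).2 (U.inf_iff.1 hi).2⟩

theorem mem_nat {U : Ult B} {k : ℕ} {z : Mod U} (hz : Mem U z (cl U (ordN k))) :
    ∃ j : Fin k, z = cl U (ordN (j : ℕ)) := by
  obtain ⟨i, rfl⟩ := exists_oN_finite (Ordinal.natCast_lt_omega0 k) z hz
  have h0 : i.toOrd.1 < k := i.toOrd.2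
  obtain ⟨j, hj⟩ := Ordinal.lt_omega0.1 (h0.trans (Ordinal.natCast_lt_omega0 k))
  have h1 : (j : Ordinal.{0}) < k := hj ▸ h0
  exact ⟨⟨j, by exact_mod_cast h1⟩, by rw [oN, hj]⟩

variable {S : Base B} {ι : Type} (X : Ix S.q ι)

/-- bound outside a finite set -/
def Off (W : Pt S.q) (s : Finset ι) (p : Mod W.1 → S.KK W) (r : S.KK W) : Prop :=
  ∀ x, Mem W.1 x (cl W.1 X.A) → (∃ i ∈ s, x = cl W.1 (X.e i)) ∨ |p x| ≤ r

instance (s : Finset ι) (π : ∀ W : Pt S.q, Mod W.1 → S.KK W) [RepV π]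
    (τ : ∀ W : Pt S.q, S.KK W) [Rep τ] : Cl fun W => Off X W s (π W) (τ W) := by
  unfold Off; infer_instance

variable {X}

theorem Off.le {W : Pt S.q} {s : Finset ι} {p : Mod W.1 → S.KK W} {r : S.KK W}
    (h : Off X W s p r) {i : ι} (hi : i ∉ s) : |p (cl W.1 (X.e i))| ≤ r := by
  rcases h _ (X.mem W i) with ⟨j, hj, e⟩ | h
  · exact (hi (X.inj W _ _ e ▸ hj)).elim
  · exact h

theorem off_of (s : Finset ι) (π : ∀ W : Pt S.q, Mod W.1 → S.KK W) [RepV π]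
    (τ : ∀ W : Pt S.q, S.KK W) [Rep τ] (P : Pt S.q → Prop) [Cl P]
    (h : ∀ i ∉ s, ∀ W, P W → |π W (cl W.1 (X.e i))| ≤ τ W) (W : Pt S.q) (hW : P W) :
    Off X W s (π W) (τ W) := by
  intro x hx
  refine X.ind (fun W x => P W → (∃ i ∈ s, x = cl W.1 (X.e i)) ∨ |π W x| ≤ τ W)
    (fun i V hV => ?_) W x hx hW
  by_cases hi : i ∈ s
  · exact Or.inl ⟨i, hi, rfl⟩
  · exact Or.inr (h i hi V hV)

theorem offFin_of {W : Pt S.q} {x : Mod W.1} (hx : IsFun (Mem W.1) x (cl W.1 X.A) (clF W.1 S.N).R)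
    {s : Finset ι} {r : S.KK W} (h : Off X W s (ev (S.ctx W) x) r) :
    OffFin (Mem W.1) (clF W.1 S.N) (cl W.1 (ixN S.q).A) (cl W.1 X.A) x r.1 := by
  let g : Name B := Name.mk (Fin s.card)
    (fun j => opairN (ordN (j : ℕ)) (X.e (s.equivFin.symm j))) fun _ => ⊤
  have h1 : ∀ j : Fin s.card, App (Mem W.1) (cl W.1 g) (cl W.1 (ordN (j : ℕ)))
      (cl W.1 (X.e (s.equivFin.symm j))) := fun j =>
    ⟨_, isOPair_opairN _ _ _, mem_mk (A := fun j : Fin s.card =>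
      opairN (ordN (j : ℕ)) (X.e (s.equivFin.symm j))) j W.1.top⟩
  refine ⟨cl W.1 (ordN s.card), cl W.1 g, (ixN S.q).mem W _, ⟨fun p hp => ?_, fun a ha => ?_⟩,
    fun i t ht => ?_⟩
  · obtain ⟨j, rfl⟩ := mem_mk_fin hp
    exact ⟨_, _, ordN_mem (by exact_mod_cast j.2) _, X.mem W _, isOPair_opairN _ _ _⟩
  · obtain ⟨j, rfl⟩ := mem_nat ha
    refine ⟨_, h1 j, ?_⟩
    rintro y ⟨p, hp1, hp2⟩
    obtain ⟨j', rfl⟩ := mem_mk_fin hp2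
    obtain ⟨h2, rfl⟩ := opair_inj hp1 (isOPair_opairN _ _ _)
    rw [Fin.ext ((ixN S.q).inj W _ _ h2)]
  · rcases h i (hx.app_mem ht).1 with ⟨j, hj, rfl⟩ | h2
    · have := h1 (s.equivFin ⟨j, hj⟩)
      rw [Equiv.symm_apply_apply] at this
      exact Or.inl ⟨_, this⟩
    · rw [ev_of_app (h := S.ctx W) hx ht]
      exact Or.inr (dist_zero.2 h2)

theorem gen_off (X : Ix S.q ι) (x : ∀ W : Pt S.q, Mod W.1) [RepM x] (τ : ∀ W : Pt S.q, S.KK W)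
    [Rep τ] : ∀ᶠ W in gen S.q, IsFun (Mem W.1) (x W) (cl W.1 X.A) (clF W.1 S.N).R ∧
      OffFin (Mem W.1) (clF W.1 S.N) (cl W.1 (ixN S.q).A) (cl W.1 X.A) (x W) (τ W).1 →
      ∃ s, Off X W s (ev (S.ctx W) (x W)) (τ W) := by
  classical
  obtain ⟨n, hn⟩ := maxp fun (W : Pt S.q) n => ∃ g, Mem W.1 n (cl W.1 (ixN S.q).A) ∧
    IsFun (Mem W.1) g n (cl W.1 X.A) ∧ ∀ i s, App (Mem W.1) (x W) i s →
      (∃ k, App (Mem W.1) g k i) ∨ Dist (Mem W.1) (clF W.1 S.N) s (clF W.1 S.N).zero (τ W).1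
  obtain ⟨g, hg⟩ := maxp fun (W : Pt S.q) g => Mem W.1 (cl W.1 n) (cl W.1 (ixN S.q).A) ∧
    IsFun (Mem W.1) g (cl W.1 n) (cl W.1 X.A) ∧ ∀ i s, App (Mem W.1) (x W) i s →
      (∃ k, App (Mem W.1) g k i) ∨ Dist (Mem W.1) (clF W.1 S.N) s (clF W.1 S.N).zero (τ W).1
  choose a ha using fun j : ℕ => maxp fun (W : Pt S.q) y =>
    App (Mem W.1) (cl W.1 g) (cl W.1 (ordN j)) y
  filter_upwards [gen_bind ((ixN S.q).gen n) fun k =>
    (Finset.range k).eventually_all.2 fun j _ => X.gen (a j)] with W h1 ⟨h2, h3⟩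
  obtain ⟨h4, h5, h6⟩ := hg W (hn W h3)
  obtain ⟨k, h7, h8⟩ := h1 h4
  rw [h7] at h5
  have h9 : ∀ j : Fin k, ∃ i, App (Mem W.1) (cl W.1 g) (cl W.1 (ordN (j : ℕ)))
      (cl W.1 (X.e i)) := fun j => by
    have h9 := ha j W (h5.2 _ (ordN_mem (by exact_mod_cast j.2) _)).exists
    obtain ⟨i, hi⟩ := h8 j (Finset.mem_range.2 j.2) (h5.app_mem h9).2
    exact ⟨i, hi ▸ h9⟩
  choose idx hidx using h9
  refine ⟨Finset.univ.image idx, fun y hy => ?_⟩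
  rcases h6 y _ (app_ev (h := S.ctx W) h2 hy) with ⟨l, hl⟩ | h10
  · obtain ⟨j, rfl⟩ := mem_nat (h5.app_mem hl).1
    exact Or.inl ⟨_, Finset.mem_image_of_mem _ (Finset.mem_univ j), h5.app_unique hl (hidx j)⟩
  · exact Or.inr (dist_zero.1 h10)

theorem K_surj {W : Pt S.q} (a : S.KK W) : ∃ n, val (S.ctx W) (cl W.1 n) = a := by
  obtain ⟨n, hn⟩ := cl_surj W.1 a.1
  exact ⟨n, by rw [hn, val_coe]⟩

theorem exists_comb_name (A x y a : Name B) : ∃ z : Name B, ∀ W : Pt S.q,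
    IsFun (Mem W.1) (cl W.1 z) (cl W.1 A) (clF W.1 S.N).R ∧
    (IsFun (Mem W.1) (cl W.1 x) (cl W.1 A) (clF W.1 S.N).R →
      IsFun (Mem W.1) (cl W.1 y) (cl W.1 A) (clF W.1 S.N).R → ev (S.ctx W) (cl W.1 z) =
      val (S.ctx W) (cl W.1 a) • ev (S.ctx W) (cl W.1 x) + ev (S.ctx W) (cl W.1 y)) := by
  obtain ⟨z, hz⟩ := exists_fun A fun W : Pt S.q =>
    val (S.ctx W) (cl W.1 a) • ev (S.ctx W) (cl W.1 x) + ev (S.ctx W) (cl W.1 y)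
  refine ⟨z, fun W => ⟨(hz W).1, fun hx hy => funext fun i => ?_⟩⟩
  by_cases hi : Mem W.1 i (cl W.1 A)
  · exact (hz W).2 i hi
  · simp [ev_out hx hi, ev_out hy hi, ev_out (hz W).1 hi]

theorem exists_comb {W : Pt S.q} {A x y : Mod W.1} (hx : IsFun (Mem W.1) x A (clF W.1 S.N).R)
    (hy : IsFun (Mem W.1) y A (clF W.1 S.N).R) (a : S.KK W) :
    ∃ z, IsFun (Mem W.1) z A (clF W.1 S.N).R ∧
      ev (S.ctx W) z = a • ev (S.ctx W) x + ev (S.ctx W) y := by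
  obtain ⟨A, rfl⟩ := cl_surj W.1 A
  obtain ⟨x, rfl⟩ := cl_surj W.1 x
  obtain ⟨y, rfl⟩ := cl_surj W.1 y
  obtain ⟨a, rfl⟩ := K_surj a
  obtain ⟨z, hz⟩ := exists_comb_name (S := S) A x y a
  exact ⟨_, (hz W).1, (hz W).2 hx hy⟩

theorem exists_zero {W : Pt S.q} (A : Mod W.1) :
    ∃ z, IsFun (Mem W.1) z A (clF W.1 S.N).R ∧ ev (S.ctx W) z = 0 := by
  obtain ⟨A, rfl⟩ := cl_surj W.1 A
  obtain ⟨z, hz⟩ := exists_fun A fun W : Pt S.q => (0 : Mod W.1 → S.KK W)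
  refine ⟨_, (hz W).1, funext fun i => ?_⟩
  by_cases hi : Mem W.1 i (cl W.1 A)
  · exact (hz W).2 i hi
  · exact ev_out (hz W).1 hi

theorem linf_iff {W : Pt S.q} {l A x : Mod W.1} (h : IsLinf (Mem W.1) (clF W.1 S.N) l A) :
    Mem W.1 x l ↔ IsFun (Mem W.1) x A (clF W.1 S.N).R ∧ ∃ r, Bd (ev (S.ctx W) x) r := by
  rw [h x]
  refine and_congr_right fun hx => ⟨fun ⟨r, hr, h1⟩ => ⟨_, bd_of (r := ⟨r, hr⟩) hx h1⟩,
    fun ⟨r, hr⟩ => ⟨r.1, r.2, normLe_of hx hr⟩⟩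

theorem linf_comb {W : Pt S.q} {l A x y : Mod W.1} (h : IsLinf (Mem W.1) (clF W.1 S.N) l A)
    (hx : Mem W.1 x l) (hy : Mem W.1 y l) (a : S.KK W) :
    ∃ z, Mem W.1 z l ∧ ev (S.ctx W) z = a • ev (S.ctx W) x + ev (S.ctx W) y := by
  rw [linf_iff h] at hx hy
  obtain ⟨hx, r, hr⟩ := hx
  obtain ⟨hy, s, hs⟩ := hy
  obtain ⟨z, h1, h2⟩ := exists_comb hx hy a
  exact ⟨z, (linf_iff h).2 ⟨h1, _, h2 ▸ (hr.smul a).add hs⟩, h2⟩

variable {c : Name B}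

theorem c0_iff {W : Pt S.q} {x : Mod W.1}
    (h : IsC0 (Mem W.1) (clF W.1 S.N) (cl W.1 (ixN S.q).A) (cl W.1 c) (cl W.1 X.A)) :
    Mem W.1 x (cl W.1 c) ↔ IsFun (Mem W.1) x (cl W.1 X.A) (clF W.1 S.N).R ∧ ∀ e : S.KK W, 0 < e →
      OffFin (Mem W.1) (clF W.1 S.N) (cl W.1 (ixN S.q).A) (cl W.1 X.A) x e.1 := by
  rw [h x]
  exact and_congr_right fun _ => ⟨fun h1 e he => h1 _ (pos_iff.2 he),
    fun h1 e he => h1 ⟨e, he.1⟩ (pos_iff.1 he)⟩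

theorem c0_of_off {W : Pt S.q} {x : Mod W.1}
    (h : IsC0 (Mem W.1) (clF W.1 S.N) (cl W.1 (ixN S.q).A) (cl W.1 c) (cl W.1 X.A))
    (hx : IsFun (Mem W.1) x (cl W.1 X.A) (clF W.1 S.N).R) {s : Finset ι}
    (hs : Off X W s (ev (S.ctx W) x) 0) : Mem W.1 x (cl W.1 c) :=
  (c0_iff h).2 ⟨hx, fun _ he => offFin_of hx fun y hy => (hs y hy).imp_right fun h => h.trans he.le⟩

theorem gen_c0 (h : ∀ W : Pt S.q,
    IsC0 (Mem W.1) (clF W.1 S.N) (cl W.1 (ixN S.q).A) (cl W.1 c) (cl W.1 X.A))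
    (x : ∀ W : Pt S.q, Mod W.1) [RepM x] (τ : ∀ W : Pt S.q, S.KK W) [Rep τ] :
    ∀ᶠ W in gen S.q, Mem W.1 (x W) (cl W.1 c) ∧ 0 < τ W →
      ∃ s, Off X W s (ev (S.ctx W) (x W)) (τ W) := by
  filter_upwards [gen_off X x τ] with W h1 ⟨h2, h3⟩
  rw [c0_iff (h W)] at h2
  exact h1 ⟨h2.1, h2.2 _ h3⟩

theorem c0_comb (h : ∀ W : Pt S.q,
    IsC0 (Mem W.1) (clF W.1 S.N) (cl W.1 (ixN S.q).A) (cl W.1 c) (cl W.1 X.A))
    {W : Pt S.q} {x y : Mod W.1} (hx : Mem W.1 x (cl W.1 c)) (hy : Mem W.1 y (cl W.1 c))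
    (a : S.KK W) :
    ∃ z, Mem W.1 z (cl W.1 c) ∧ ev (S.ctx W) z = a • ev (S.ctx W) x + ev (S.ctx W) y := by
  classical
  obtain ⟨x, rfl⟩ := cl_surj W.1 x
  obtain ⟨y, rfl⟩ := cl_surj W.1 y
  obtain ⟨a, rfl⟩ := K_surj a
  obtain ⟨z, hz⟩ := exists_comb_name (S := S) X.A x y a
  refine ⟨_, (c0_iff (h W)).2 ⟨(hz W).1, fun e he => ?_⟩,
    (hz W).2 ((c0_iff (h W)).1 hx).1 ((c0_iff (h W)).1 hy).1⟩
  obtain ⟨e, rfl⟩ := K_surj e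
  refine of_gen (fun W => Mem W.1 (cl W.1 x) (cl W.1 c) → Mem W.1 (cl W.1 y) (cl W.1 c) →
    0 < val (S.ctx W) (cl W.1 e) → OffFin (Mem W.1) (clF W.1 S.N) (cl W.1 (ixN S.q).A)
      (cl W.1 X.A) (cl W.1 z) (val (S.ctx W) (cl W.1 e)).1) ?_ W hx hy he
  filter_upwards [gen_c0 h (fun W => cl W.1 x) fun W =>
    val (S.ctx W) (cl W.1 e) / (|val (S.ctx W) (cl W.1 a)| + 1), gen_c0 h (fun W => cl W.1 y)
    fun W => val (S.ctx W) (cl W.1 e) / (|val (S.ctx W) (cl W.1 a)| + 1)] with W h1 h2 hx hy he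
  obtain ⟨s, hs⟩ := h1 ⟨hx, by positivity⟩
  obtain ⟨t, ht⟩ := h2 ⟨hy, by positivity⟩
  refine offFin_of (hz W).1 (s := s ∪ t) fun i hi => ?_
  rcases hs i hi with ⟨j, hj, e1⟩ | h3
  · exact Or.inl ⟨j, Finset.mem_union_left _ hj, e1⟩
  rcases ht i hi with ⟨j, hj, e1⟩ | h4
  · exact Or.inl ⟨j, Finset.mem_union_right _ hj, e1⟩
  refine Or.inr ?_
  rw [(hz W).2 ((c0_iff (h W)).1 hx).1 ((c0_iff (h W)).1 hy).1]
  simp only [Pi.add_apply, Pi.smul_apply, smul_eq_mul]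
  refine (abs_add_le _ _).trans ?_
  rw [abs_mul]
  have h5 : 0 < |val (S.ctx W) (cl W.1 a)| + 1 := by positivity
  rw [le_div_iff₀ h5] at h3 h4
  refine le_of_mul_le_mul_right ?_ h5
  nlinarith [abs_nonneg (val (S.ctx W) (cl W.1 a))]

end Pool.Agent.Lib.MP_c1e359_an
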