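import Pool.Agent.Lib.MP_5d9fac_lc.MA
import Pool.Agent.Lib.MP_c1e359_an.Fin

/-!
The forcing argument: uniformization of a locally solvable system of sequences.
-/

namespace Pool.Agent.Lib.MP_c1e359_an

open Pool.Agent.Lib.MP_5d9fac_lc Filter Cardinal Finset

variable {B : Type} [CompleteBooleanAlgebra B]

theorem top_le_iSup {q : B} {ι : Type} (i0 : ι) {P Q : ι → Pt q → Prop} [∀ i, Cl (P i)]
    [∀ i, Cl (Q i)] (h : ∀ᶠ W in gen q, ∃ k, P k W ∧ Q k W) :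
    ⊤ ≤ ⨆ k, (q ⇨ tv (P k)) ⊓ (q ⇨ tv (Q k)) := by
  refine Ult.le_of fun U _ => ?_
  by_cases hq : U.In q
  · refine of_gen (fun W : Pt q => W.1.In (⨆ k, (q ⇨ tv (P k)) ⊓ (q ⇨ tv (Q k)))) ?_ ⟨U, hq⟩
    filter_upwards [h] with W ⟨k, h1, h2⟩
    exact W.1.iSup_intro k (W.1.inf (W.1.himp_iff.2 fun _ => (in_tv _ W).2 h1)
      (W.1.himp_iff.2 fun _ => (in_tv _ W).2 h2))
  · exact U.iSup_intro i0 (U.inf (U.himp_iff.2 fun h => (hq h).elim)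
      (U.himp_iff.2 fun h => (hq h).elim))

theorem ma_pt (hB : LinkedMA B) {q : B} {I J : Type} [Nonempty I] (hI : #I ≤ ℵ₁) (hJ : #J ≤ ℵ₁)
    (c : I → ℕ) (le : I → I → Pt q → Prop) [∀ i j, Cl (le i j)] (D : J → I → Pt q → Prop)
    [∀ j i, Cl (D j i)] (h1 : ∀ i W, le i i W) (h2 : ∀ i j k W, le i j W → le j k W → le i k W)
    (h3 : ∀ i j, c i = c j → ∀ᶠ W in gen q, ∃ k, le k i W ∧ le k j W)
    (h4 : ∀ j i, ∀ᶠ W in gen q, ∃ k, D j k W ∧ le k i W) :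
    ∃ g : I → B, (∀ i j, ∀ᶠ W in gen q, W.1.In (g i) → W.1.In (g j) →
      ∃ k, W.1.In (g k) ∧ le k i W ∧ le k j W) ∧
      ∀ j, ∀ᶠ W in gen q, ∃ k, D j k W ∧ W.1.In (g k) := by
  obtain ⟨g, hg1, hg2⟩ := hB I J hI hJ c (fun i j => q ⇨ tv (le i j)) (fun j i => q ⇨ tv (D j i))
    (fun i => Ult.eq_top_of fun U => U.himp_iff.2 fun h => (in_tv _ ⟨U, h⟩).2 (h1 i _))
    (fun i j k => Ult.le_of fun U hU => U.himp_iff.2 fun h => (in_tv _ ⟨U, h⟩).2 (h2 i j k _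
      ((in_tv _ ⟨U, h⟩).1 (U.himp_iff.1 (U.inf_iff.1 hU).1 h))
      ((in_tv _ ⟨U, h⟩).1 (U.himp_iff.1 (U.inf_iff.1 hU).2 h))))
    (fun i j h => top_le_iSup (P := fun k => le k i) (Q := fun k => le k j) i (h3 i j h))
    (fun j i => top_le_iSup (P := fun k => D j k) (Q := fun k => le k i) i (h4 j i))
  refine ⟨g, fun i j => ?_, fun j => ?_⟩
  · filter_upwards [gen_iSup fun k => g k ⊓ (q ⇨ tv (le k i)) ⊓ (q ⇨ tv (le k j))] with W h5 hi hj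
    obtain ⟨k, hk⟩ := h5 (W.1.mono (hg1 i j) (W.1.inf hi hj))
    simp only [W.1.inf_iff, W.1.himp_iff, in_tv] at hk
    exact ⟨k, hk.1.1, hk.1.2 W.2, hk.2 W.2⟩
  · filter_upwards [gen_iSup fun k => (q ⇨ tv (D j k)) ⊓ g k] with W h5
    obtain ⟨k, hk⟩ := h5 (W.1.mono (hg2 j) W.1.top)
    simp only [W.1.inf_iff, W.1.himp_iff, in_tv] at hk
    exact ⟨k, hk.1 W.2, hk.2⟩

/-- finite approximations -/
abbrev Cond (Ω : Type) : Type := ℕ × Finset Ω × (Ω × ℕ →₀ ℚ)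

theorem exists_colour {Ω : Type} (hΩ : #Ω ≤ ℵ₁) : ∃ c : Cond Ω → ℕ, ∀ i j, c i = c j →
    i.1 = j.1 ∧ ∀ γ ∈ i.2.1, γ ∈ j.2.1 → ∀ m < i.1, i.2.2 (γ, m) = j.2.2 (γ, m) := by
  classical
  obtain ⟨e⟩ : Nonempty (Ω ↪ (ℕ → Bool)) := by
    rw [← Cardinal.le_def]
    refine hΩ.trans ?_
    simpa using aleph0_lt_continuum
  have h1 : ∀ F : Finset Ω, ∃ N, ∀ γ ∈ F, ∀ δ ∈ F,
      (List.range N).map (e γ) = (List.range N).map (e δ) → γ = δ := by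
    intro F
    have h2 : ∀ p : Ω × Ω, ∃ k, e p.1 k = e p.2 k → p.1 = p.2 := by
      intro p
      by_cases h : p.1 = p.2
      · exact ⟨0, fun _ => h⟩
      · obtain ⟨k, hk⟩ := Function.ne_iff.1 (e.injective.ne h)
        exact ⟨k, fun h => (hk h).elim⟩
    choose k hk using h2
    refine ⟨(F ×ˢ F).sup k + 1, fun γ hγ δ hδ h => hk (γ, δ) ?_⟩
    exact List.map_inj_left.1 h _ (List.mem_range.2
      (Nat.lt_succ_of_le (le_sup (f := k) (mk_mem_product hγ hδ))))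
  choose N hN using h1
  refine ⟨fun i => Encodable.encode (i.1, N i.2.1, i.2.1.image fun γ =>
    ((List.range (N i.2.1)).map (e γ), (List.range i.1).map fun m => i.2.2 (γ, m))),
    fun i j h => ?_⟩
  have h2 := Encodable.encode_injective h
  simp only [Prod.mk.injEq] at h2
  obtain ⟨h3, h4, h5⟩ := h2
  refine ⟨h3, fun γ hi hj m hm => ?_⟩
  have h6 := mem_image_of_mem (fun γ =>
    ((List.range (N i.2.1)).map (e γ), (List.range i.1).map fun m => i.2.2 (γ, m))) hi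
  rw [h5] at h6
  obtain ⟨δ, hδ, h7⟩ := mem_image.1 h6
  simp only [Prod.mk.injEq] at h7
  rw [h4] at h7
  obtain rfl := hN _ _ hδ _ hj h7.1
  rw [← h3] at h7
  exact (List.map_inj_left.1 h7.2 m (List.mem_range.2 hm)).symm

theorem mk_cond {Ω : Type} (hΩ : #Ω ≤ ℵ₁) : #(Cond Ω) ≤ ℵ₁ := by
  have h0 : ℵ₀ ≤ (ℵ₁ : Cardinal.{0}) := aleph0_lt_aleph_one.le
  have h1 : ∀ α : Type, #α ≤ ℵ₁ → #(Finset α) ≤ ℵ₁ := fun α h => by
    rcases finite_or_infinite α with h' | h'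
    · exact mk_le_aleph0.trans h0
    · rwa [mk_finset_of_infinite]
  have h2 : ∀ α β : Type, #α ≤ ℵ₁ → #β ≤ ℵ₁ → #(α × β) ≤ ℵ₁ := fun α β h h' => by
    simpa using mul_le_of_le h0 h h'
  refine h2 _ _ (mk_le_aleph0.trans h0) (h2 _ _ (h1 _ hΩ) ?_)
  exact (mk_le_of_injective (Finsupp.graph_injective _ _)).trans
    (h1 _ (h2 _ _ (h2 _ _ hΩ (mk_le_aleph0.trans h0)) (mk_le_aleph0.trans h0)))

theorem exists_finsupp {Ω : Type} (F : Finset Ω) (n : ℕ) (f : Ω × ℕ → ℚ) :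
    ∃ v : Ω × ℕ →₀ ℚ, ∀ γ ∈ F, ∀ m < n, v (γ, m) = f (γ, m) := by
  classical
  refine ⟨Finsupp.onFinset (F ×ˢ range n) (fun p => if p ∈ F ×ˢ range n then f p else 0)
    fun p hp => by_contra fun h => hp (if_neg h), fun γ hγ m hm => ?_⟩
  simp [hγ, hm]

variable {S : Base B} {Ω : Type} (ζ : Finset Ω → ℕ → ∀ W : Pt S.q, S.KK W) [∀ A m, Rep (ζ A m)]
  (c : ℚ)

/-- a rational vector solves the system at one coordinate -/
def Sol (F : Finset Ω) (m : ℕ) (w : Ω → ℚ) (W : Pt S.q) : Prop :=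
  ∀ A ∈ F.powerset, |ζ A m W - (∑ γ ∈ A, w γ : ℚ)| ≤ c

instance (F : Finset Ω) (m : ℕ) (w : Ω → ℚ) : Cl (Sol ζ c F m w) := by
  unfold Sol; infer_instance

/-- the system is solvable from some coordinate on -/
noncomputable def good (n : ℕ) (F : Finset Ω) : B :=
  ⨅ m, ⨅ _ : n ≤ m, ⨆ w, tv (Sol ζ c F m w)

/-- extension of conditions -/
def Ext (k i : Cond Ω) (W : Pt S.q) : Prop :=
  (i.2.1 ⊆ k.2.1 ∧ i.1 ≤ k.1 ∧ ∀ γ ∈ i.2.1, ∀ m < i.1, k.2.2 (γ, m) = i.2.2 (γ, m)) ∧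
    ∀ m ∈ Ico i.1 k.1, Sol ζ (3 * c) i.2.1 m (fun γ => k.2.2 (γ, m)) W

instance (k i : Cond Ω) : Cl (Ext ζ c k i) := by
  unfold Ext; infer_instance

variable {ζ c}

omit [∀ A m, Rep (ζ A m)] in
theorem Sol.congr {F : Finset Ω} {m : ℕ} {w w' : Ω → ℚ} {W : Pt S.q} (h : Sol ζ c F m w W)
    (e : ∀ γ ∈ F, w' γ = w γ) : Sol ζ c F m w' W := fun A hA => by
  rw [sum_congr rfl fun γ hγ => e γ (mem_powerset.1 hA hγ)]
  exact h A hA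

omit [∀ A m, Rep (ζ A m)] in
theorem Ext.trans {i j k : Cond Ω} {W : Pt S.q} (h1 : Ext ζ c i j W) (h2 : Ext ζ c j k W) :
    Ext ζ c i k W := by
  refine ⟨⟨h2.1.1.trans h1.1.1, h2.1.2.1.trans h1.1.2.1, fun γ hγ m hm => ?_⟩, fun m hm => ?_⟩
  · rw [h1.1.2.2 γ (h2.1.1 hγ) m (hm.trans_le h2.1.2.1), h2.1.2.2 γ hγ m hm]
  · rw [mem_Ico] at hm
    rcases lt_or_ge m j.1 with h | h
    · exact (h2.2 m (mem_Ico.2 ⟨hm.1, h⟩)).congr fun γ hγ => h1.1.2.2 γ (h2.1.1 hγ) m h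
    · exact fun A hA => h1.2 m (mem_Ico.2 ⟨h, hm.2⟩) A
        (mem_powerset.2 ((mem_powerset.1 hA).trans h2.1.1))

theorem good_mono {n n' : ℕ} (h : n ≤ n') (F : Finset Ω) : good ζ c n F ≤ good ζ c n' F :=
  le_iInf₂ fun m hm => iInf₂_le m (h.trans hm)

theorem amal (hc : 0 ≤ c) (hg : ∀ F, ∀ᶠ W in gen S.q, ∃ n, W.1.In (good ζ c n F)) (i j : Cond Ω)
    (h1 : i.1 = j.1) (h2 : ∀ γ ∈ i.2.1, γ ∈ j.2.1 → ∀ m < i.1, i.2.2 (γ, m) = j.2.2 (γ, m))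
    (F : Finset Ω) (n : ℕ) : ∀ᶠ W in gen S.q, W.1.In (good ζ c i.1 i.2.1) →
      W.1.In (good ζ c j.1 j.2.1) → ∃ k : Cond Ω, W.1.In (good ζ c k.1 k.2.1) ∧ Ext ζ c k i W ∧
        Ext ζ c k j W ∧ F ⊆ k.2.1 ∧ n ≤ k.1 := by
  classical
  filter_upwards [gen_bind' (hg (i.2.1 ∪ j.2.1 ∪ F)) fun n' =>
    (range (max n' (max n i.1))).eventually_all.2 fun m _ =>
      (gen_iSup fun w => tv (Sol ζ c i.2.1 m w)).and (gen_iSup fun w => tv (Sol ζ c j.2.1 m w))]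
    with W ⟨n', h3, h4⟩ hi hj
  have h5 : ∀ m, ∃ w, m ∈ Ico i.1 (max n' (max n i.1)) → Sol ζ c i.2.1 m w W := fun m => by
    by_cases hm : m ∈ Ico i.1 (max n' (max n i.1))
    · obtain ⟨w, hw⟩ := (h4 m (mem_range.2 (mem_Ico.1 hm).2)).1
        (W.1.iInf_elim (W.1.iInf_elim hi m) (mem_Ico.1 hm).1)
      exact ⟨w, fun _ => (in_tv _ W).1 hw⟩
    · exact ⟨0, fun h => (hm h).elim⟩
  have h6 : ∀ m, ∃ w, m ∈ Ico i.1 (max n' (max n i.1)) → Sol ζ c j.2.1 m w W := fun m => by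
    by_cases hm : m ∈ Ico i.1 (max n' (max n i.1))
    · obtain ⟨w, hw⟩ := (h4 m (mem_range.2 (mem_Ico.1 hm).2)).2
        (W.1.iInf_elim (W.1.iInf_elim hj m) (h1 ▸ (mem_Ico.1 hm).1))
      exact ⟨w, fun _ => (in_tv _ W).1 hw⟩
    · exact ⟨0, fun h => (hm h).elim⟩
  choose wi hwi using h5
  choose wj hwj using h6
  obtain ⟨v, hv⟩ := exists_finsupp (i.2.1 ∪ j.2.1 ∪ F) (max n' (max n i.1)) fun p =>
    if p.2 < i.1 then (if p.1 ∈ i.2.1 then i.2.2 p else j.2.2 p)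
    else (if p.1 ∈ i.2.1 then wi p.2 p.1 else wj p.2 p.1)
  have s1 : i.2.1 ⊆ i.2.1 ∪ j.2.1 ∪ F := subset_union_left.trans subset_union_left
  have s2 : j.2.1 ⊆ i.2.1 ∪ j.2.1 ∪ F := subset_union_right.trans subset_union_left
  have l1 : i.1 ≤ max n' (max n i.1) := (le_max_right _ _).trans (le_max_right _ _)
  have hc' : (0 : S.KK W) ≤ c := by exact_mod_cast hc
  refine ⟨(max n' (max n i.1), i.2.1 ∪ j.2.1 ∪ F, v), W.1.mono (good_mono (le_max_left _ _) _) h3,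
    ⟨⟨s1, l1, fun γ hγ m hm => ?_⟩, fun m hm A hA => ?_⟩,
    ⟨⟨s2, h1 ▸ l1, fun γ hγ m hm => ?_⟩, fun m hm A hA => ?_⟩, subset_union_right,
    (le_max_left _ _).trans (le_max_right _ _)⟩
  · simp only
    rw [hv γ (s1 hγ) m (hm.trans_le l1), if_pos hm, if_pos hγ]
  · have := (hwi m hm).congr (w' := fun γ => v (γ, m)) (fun γ hγ => by
      rw [hv γ (s1 hγ) m (mem_Ico.1 hm).2, if_neg (mem_Ico.1 hm).1.not_gt, if_pos hγ]) A hA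
    refine this.trans ?_
    push_cast
    linarith
  · rw [← h1] at hm
    simp only
    rw [hv γ (s2 hγ) m (hm.trans_le l1), if_pos hm]
    split_ifs with h
    · exact h2 γ h hγ m hm
    · rfl
  · rw [← h1] at hm
    have e1 : ∑ γ ∈ A, v (γ, m) = ∑ γ ∈ A, wj m γ + ∑ γ ∈ A.filter (· ∈ i.2.1), wi m γ -
        ∑ γ ∈ A.filter (· ∈ i.2.1), wj m γ := by
      rw [sum_filter, sum_filter, ← Finset.sum_add_distrib, ← Finset.sum_sub_distrib]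
      refine sum_congr rfl fun γ hγ => ?_
      rw [hv γ (s2 (mem_powerset.1 hA hγ)) m (mem_Ico.1 hm).2, if_neg (mem_Ico.1 hm).1.not_gt]
      split_ifs <;> simp
    have e2 := abs_le.1 (hwj m hm A hA)
    have e3 := abs_le.1 (hwi m hm (A.filter (· ∈ i.2.1))
      (mem_powerset.2 fun γ hγ => (mem_filter.1 hγ).2))
    have e4 := abs_le.1 (hwj m hm (A.filter (· ∈ i.2.1))
      (mem_powerset.2 ((filter_subset _ _).trans (mem_powerset.1 hA))))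
    simp only
    rw [e1, Rat.cast_sub, Rat.cast_add, abs_le]
    push_cast at e2 e3 e4 ⊢
    constructor <;> linarith [e2.1, e2.2, e3.1, e3.2, e4.1, e4.2]

theorem core (hB : LinkedMA B) (hΩ : #Ω ≤ ℵ₁) (hc : 0 ≤ c)
    (hg : ∀ F, ∀ᶠ W in gen S.q, ∃ n, W.1.In (good ζ c n F)) :
    ∃ ν : Ω → ℕ → ∀ W : Pt S.q, S.KK W, (∀ γ m, Rep (ν γ m)) ∧ ∀ A : Finset Ω,
      ∀ᶠ W in gen S.q, ∃ (n : ℕ) (M : ℚ) (b : B), W.1.In b ∧ ∀ V : Pt S.q, V.1.In b →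
        (∀ m, n ≤ m → |ζ A m V - ∑ γ ∈ A, ν γ m V| ≤ 3 * c) ∧
          ∀ γ ∈ A, ∀ m < n, |ν γ m V| ≤ M := by
  classical
  obtain ⟨col, hcol⟩ := exists_colour hΩ
  let vl : Cond Ω → B := fun i => good ζ c i.1 i.2.1
  have hrefl : ∀ (i : Cond Ω) (W : Pt S.q), Ext ζ c i i W := fun i W =>
    ⟨⟨subset_rfl, le_rfl, fun _ _ _ _ => rfl⟩, by simp⟩
  obtain ⟨g, hg1, hg2⟩ := ma_pt hB (J := Cond Ω) (mk_cond hΩ) (mk_cond hΩ) col
    (fun k i W => W.1.In (vl i) → W.1.In (vl k) ∧ Ext ζ c k i W)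
    (fun j k W => W.1.In (vl k) ∧ j.2.1 ⊆ k.2.1 ∧ j.1 ≤ k.1)
    (fun i W h => ⟨h, hrefl i W⟩)
    (fun i j k W h1 h2 h => ⟨(h1 (h2 h).1).1, (h1 (h2 h).1).2.trans (h2 h).2⟩)
    (fun i j h => by
      filter_upwards [amal hc hg i j (hcol i j h).1 (hcol i j h).2 ∅ 0] with W h1
      by_cases hi : W.1.In (vl i)
      · by_cases hj : W.1.In (vl j)
        · obtain ⟨k, h2, h3, h4, -⟩ := h1 hi hj
          exact ⟨k, fun _ => ⟨h2, h3⟩, fun _ => ⟨h2, h4⟩⟩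
        · exact ⟨i, fun h => ⟨h, hrefl i W⟩, fun h => (hj h).elim⟩
      · exact ⟨j, fun h => (hi h).elim, fun h => ⟨h, hrefl j W⟩⟩)
    (fun j i => by
      filter_upwards [amal hc hg i i rfl (fun _ _ _ _ _ => rfl) j.2.1 j.1, hg j.2.1]
        with W h1 ⟨n, hn⟩
      by_cases hi : W.1.In (vl i)
      · obtain ⟨k, h2, h3, -, h4⟩ := h1 hi hi
        exact ⟨k, ⟨h2, h4⟩, fun _ => ⟨h2, h3⟩⟩
      · exact ⟨(max n j.1, j.2.1, 0), ⟨W.1.mono (good_mono (le_max_left _ _) _) hn, subset_rfl,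
          le_max_right _ _⟩, fun h => (hi h).elim⟩)
  have hν : ∀ γ m, ∃ ν : ∀ W : Pt S.q, S.KK W, Rep ν ∧ ∀ (k : Cond Ω) (W : Pt S.q), γ ∈ k.2.1 →
      m < k.1 → W.1.In (g k) → W.1.In (vl k) → ν W = k.2.2 (γ, m) := by
    intro γ m
    choose ρ hρ using fun t : ℚ => (Rep.rat (S := S) t).ex_name
    let X : Name B := Name.mk {k : Cond Ω // γ ∈ k.2.1 ∧ m < k.1} (fun k => ρ (k.1.2.2 (γ, m)))
      fun k => g k.1 ⊓ vl k.1
    refine ⟨fun W => the fun s => Mem W.1 s.1 (cl W.1 X), inferInstance,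
      fun k W h1 h2 h3 h4 => the_eq ?_ fun t ht => K.ext ?_⟩
    · rw [hρ]
      exact mem_mk (A := fun k : {k : Cond Ω // γ ∈ k.2.1 ∧ m < k.1} => ρ (k.1.2.2 (γ, m)))
        ⟨k, h1, h2⟩ (W.1.inf h3 h4)
    · rw [hρ]
      refine mk_ind (fun W x => W.1.In (g k) → W.1.In (vl k) → x = cl W.1 (ρ (k.2.2 (γ, m))))
        (fun l => ?_) W _ ht h3 h4
      refine of_gen _ ?_
      filter_upwards [hg1 k l.1] with V h5 h6 h7 h8
      obtain ⟨p, -, h9, h10⟩ := h5 h7 (V.1.inf_iff.1 h6).1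
      rw [← (h9 h8).2.1.2.2 γ h1 m h2, (h10 (V.1.inf_iff.1 h6).2).2.1.2.2 γ l.2.1 m l.2.2]
  choose ν hν1 hν2 using hν
  refine ⟨ν, hν1, fun A => ?_⟩
  filter_upwards [hg2 (0, A, 0)] with W ⟨k, ⟨h1, h2, _⟩, h3⟩
  refine ⟨k.1, ∑ p ∈ A ×ˢ range k.1, |k.2.2 p|, g k ⊓ vl k, W.1.inf h3 h1, fun V hV =>
    ⟨fun m hm => ?_, fun γ hγ m hm => ?_⟩⟩
  · refine of_gen (fun V => V.1.In (g k ⊓ vl k) → |ζ A m V - ∑ γ ∈ A, ν γ m V| ≤ 3 * c) ?_ V hV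
    filter_upwards [gen_bind' (hg2 (m + 1, ∅, 0)) fun l => hg1 k l] with V ⟨l, ⟨h4, h5⟩, h6⟩ hV
    rw [V.1.inf_iff] at hV
    obtain ⟨p, h7, h8, h9⟩ := h6 hV.1 h5
    obtain ⟨h10, h11⟩ := h8 hV.2
    have h12 : m < p.1 := lt_of_lt_of_le h4.2.2 (h9 h4.1).2.1.2.1
    have h13 := h11.2 m (mem_Ico.2 ⟨hm, h12⟩) A (mem_powerset.2 h2)
    rw [sum_congr rfl fun γ hγ => hν2 γ m p V (h11.1.1 (h2 hγ)) h12 h7 h10]
    push_cast at h13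
    exact h13
  · rw [V.1.inf_iff] at hV
    rw [hν2 γ m k V (h2 hγ) hm hV.1 hV.2]
    exact_mod_cast single_le_sum (f := fun p => |k.2.2 p|) (fun _ _ => abs_nonneg _)
      (mk_mem_product hγ (mem_range.2 hm))

end Pool.Agent.Lib.MP_c1e359_an
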