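import Pool.Agent.Lib.MP_5d9fac_lc.Defs

/-!
Real numbers, the spaces `c₀(A)` and `ℓ∞(A)`, operators and quotient operators inside a structure
`(M, E)` for the language of set theory.  Every notion quantifies only over elements of `M` and
uses only `E` and equality.
-/

namespace Pool.Agent.Lib.MP_c1e359_an

open Pool.Agent.Lib.MP_5d9fac_lc

universe u

/-- Six elements of `M`: the set of reals, the graphs of addition and multiplication, the order
relation, zero and one. -/
structure RF (M : Type u) where
  R : M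
  add : M
  mul : M
  le : M
  zero : M
  one : M

variable {M : Type u} (E : M → M → Prop)

/-- `f(a, b) = c`. -/
def Op (f a b c : M) : Prop := ∃ p, IsOPair E p a b ∧ App E f p c

/-- `f` is an associative and commutative binary operation on `R` with neutral element `e`. -/
def IsCommOp (f R e : M) : Prop :=
  (∃ P, IsProd E P R R ∧ IsFun E f P R) ∧
  (∀ a b c s t v, Op E f a b s → Op E f b c t → Op E f s c v → Op E f a t v) ∧
  (∀ a b s, Op E f a b s → Op E f b a s) ∧
  E e R ∧ ∀ a, E a R → Op E f e a a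

variable (F : RF M)

/-- `F` is a Dedekind complete ordered field in `(M, E)`. -/
def IsReals : Prop :=
  IsCommOp E F.add F.R F.zero ∧ IsCommOp E F.mul F.R F.one ∧ F.zero ≠ F.one ∧
  (∀ a, E a F.R → ∃ b, Op E F.add b a F.zero) ∧
  (∀ a, E a F.R → a ≠ F.zero → ∃ b, Op E F.mul a b F.one) ∧
  (∀ a b c s t v x, Op E F.add b c s → Op E F.mul a b t → Op E F.mul a c v → Op E F.add t v x →
    Op E F.mul a s x) ∧
  (∀ a b, E a F.R → E b F.R → App E F.le a b ∨ App E F.le b a) ∧
  (∀ a b, App E F.le a b → App E F.le b a → a = b) ∧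
  (∀ a b c, App E F.le a b → App E F.le b c → App E F.le a c) ∧
  (∀ a b c s t, App E F.le a b → Op E F.add a c s → Op E F.add b c t → App E F.le s t) ∧
  (∀ a b s, App E F.le F.zero a → App E F.le F.zero b → Op E F.mul a b s → App E F.le F.zero s) ∧
  ∀ S, Sub E S F.R → (∃ a, E a S) → (∃ b, E b F.R ∧ ∀ a, E a S → App E F.le a b) →
    ∃ s, E s F.R ∧ (∀ a, E a S → App E F.le a s) ∧
      ∀ b, E b F.R → (∀ a, E a S → App E F.le a b) → App E F.le s b

/-- `e` is a positive real. -/
def Pos (e : M) : Prop := E e F.R ∧ App E F.le F.zero e ∧ e ≠ F.zero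

/-- `|s - t| ≤ r`, that is `s ≤ t + r` and `t ≤ s + r`. -/
def Dist (s t r : M) : Prop :=
  (∃ m, Op E F.add t r m ∧ App E F.le s m) ∧ ∃ m, Op E F.add s r m ∧ App E F.le t m

/-- `‖x‖ ≤ r` in the supremum norm. -/
def NormLe (x r : M) : Prop := ∀ i s, App E x i s → Dist E F s F.zero r

/-- `z = a x + y` pointwise. -/
def Comb (a x y z : M) : Prop :=
  ∀ i s t v, App E x i s → App E y i t → App E z i v → ∃ m, Op E F.mul a s m ∧ Op E F.add m t v

/-- `|x i| ≤ r` for all `i` outside the range of a function from some natural number (an element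
of `w`) into `A`, that is outside a finite subset of `A`. -/
def OffFin (w A x r : M) : Prop :=
  ∃ n g, E n w ∧ IsFun E g n A ∧ ∀ i s, App E x i s → (∃ k, App E g k i) ∨ Dist E F s F.zero r

/-- `l = ℓ∞(A)`. -/
def IsLinf (l A : M) : Prop := ∀ x, E x l ↔ IsFun E x A F.R ∧ ∃ r, E r F.R ∧ NormLe E F x r

/-- `c = c₀(A)`, where `w` is the set of natural numbers. -/
def IsC0 (w c A : M) : Prop :=
  ∀ x, E x c ↔ IsFun E x A F.R ∧ ∀ e, Pos E F e → OffFin E F w A x e

/-- The function `T` between function spaces is linear. -/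
def IsLin (T : M) : Prop :=
  ∀ a x y z x' y' z', E a F.R → App E T x x' → App E T y y' → App E T z z' →
    Comb E F a x y z → Comb E F a x' y' z'

/-- `T` is a bounded linear operator from `X` to `Y` (supremum norms). -/
def IsOperator (T X Y : M) : Prop :=
  IsFun E T X Y ∧ IsLin E F T ∧
    ∃ C, E C F.R ∧ ∀ x x' r m, App E T x x' → NormLe E F x r → Op E F.mul C r m → NormLe E F x' m

/-- `J : l → L` is linear and `‖J z‖` is the distance from `z` to `c`; so `J` induces an isometric
embedding of the quotient `l / c` into `L`. -/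
def IsQuotEmb (J c l L : M) : Prop :=
  IsFun E J l L ∧ IsLin E F J ∧
    ∀ z j r, App E J z j → E r F.R → (NormLe E F j r ↔ ∀ e s, Pos E F e → Op E F.add r e s →
      ∃ y d, E y c ∧ E d l ∧ Comb E F F.one y d z ∧ NormLe E F d s)

/-- `Q` is the set of cosets in `L` of the range of `J`. -/
def IsQuot (Q L J : M) : Prop :=
  ∀ q, E q Q ↔ ∃ u, E u L ∧ ∀ v, E v q ↔ (E v L ∧ ∃ z j, App E J z j ∧ Comb E F F.one j u v)

/-- `f` is a bounded linear operator from `X` to the set `Q` of cosets in `L`, with the quotient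
operations and the quotient norm. -/
def IsQuotOperator (f X Q L : M) : Prop :=
  IsFun E f X Q ∧
  (∀ a x y z p q t u v k, E a F.R → App E f x p → App E f y q → App E f z t → Comb E F a x y z →
    E u p → E v q → E k L → Comb E F a u v k → E k t) ∧
  ∃ C, E C F.R ∧ ∀ x q r m e s, App E f x q → NormLe E F x r → Op E F.mul C r m → Pos E F e →
    Op E F.add m e s → ∃ u, E u q ∧ NormLe E F u s

end Pool.Agent.Lib.MP_c1e359_an
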