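import Mathlib

/-!
Fourier-Motzkin elimination over the rationals with a finite family of tests.
-/

namespace Pool.Agent.Lib.MP_c1e359_an

open Finset

theorem exists_between_fin {ι κ : Type*} (s : Finset ι) (t : Finset κ) (l : ι → ℚ) (u : κ → ℚ)
    (h : ∀ i ∈ s, ∀ j ∈ t, l i ≤ u j) : ∃ x, (∀ i ∈ s, l i ≤ x) ∧ ∀ j ∈ t, x ≤ u j := by
  rcases s.eq_empty_or_nonempty with rfl | hs
  · rcases t.eq_empty_or_nonempty with rfl | ht
    · exact ⟨0, by simp, by simp⟩
    · obtain ⟨j, -, hj⟩ := t.exists_min_image u ht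
      exact ⟨u j, by simp, hj⟩
  · obtain ⟨i, hi, hi'⟩ := s.exists_max_image l hs
    exact ⟨l i, hi', h i hi⟩

theorem fm {T Ω : Type*} (t : Finset T) (A : T → Ω → ℚ) (F : Finset Ω) :
    ∃ Y : Finset (T → ℚ), (∀ y ∈ Y, (∀ s, 0 ≤ y s) ∧ ∀ γ ∈ F, ∑ s ∈ t, y s * A s γ = 0) ∧
      ∀ β : T → ℚ, (∀ y ∈ Y, 0 ≤ ∑ s ∈ t, y s * β s) →
        ∃ w : Ω → ℚ, ∀ s ∈ t, ∑ γ ∈ F, A s γ * w γ ≤ β s := by
  classical
  induction F using Finset.induction_on with
  | empty =>
    refine ⟨t.image fun s => Pi.single s 1, ?_, fun β hβ => ⟨0, fun s hs => ?_⟩⟩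
    · simp only [mem_image]
      rintro _ ⟨s, -, rfl⟩
      exact ⟨fun s' => by rw [Pi.single_apply]; split_ifs <;> norm_num, by simp⟩
    · simpa [Pi.single_apply, hs] using hβ _ (mem_image_of_mem _ hs)
  | insert δ F hδ ih =>
    obtain ⟨Y, hY1, hY2⟩ := ih
    let α : (T → ℚ) → ℚ := fun y => ∑ s ∈ t, y s * A s δ
    have hlin : ∀ (a b : ℚ) (y y' g : T → ℚ), ∑ s ∈ t, (a • y + b • y') s * g s =
        a * ∑ s ∈ t, y s * g s + b * ∑ s ∈ t, y' s * g s := by
      intro a b y y' g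
      simp only [Pi.add_apply, Pi.smul_apply, smul_eq_mul, mul_sum, ← sum_add_distrib]
      exact sum_congr rfl fun s _ => by ring
    refine ⟨Y.filter (fun y => α y = 0) ∪ ((Y.filter fun y => 0 < α y) ×ˢ
      (Y.filter fun y => α y < 0)).image fun p => (-α p.2) • p.1 + α p.1 • p.2, ?_, fun β hβ => ?_⟩
    · intro y hy
      simp only [mem_union, mem_filter, mem_image, mem_product] at hy
      rcases hy with ⟨h1, h2⟩ | ⟨⟨y1, y2⟩, ⟨⟨h1, h2⟩, h3, h4⟩, rfl⟩
      · exact ⟨(hY1 y h1).1, forall_mem_insert .. |>.2 ⟨h2, (hY1 y h1).2⟩⟩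
      · refine ⟨fun s => add_nonneg (mul_nonneg (neg_nonneg.2 h4.le) ((hY1 _ h1).1 s))
          (mul_nonneg h2.le ((hY1 _ h3).1 s)), forall_mem_insert .. |>.2 ⟨?_, fun γ hγ => ?_⟩⟩
        · rw [hlin]
          simp only [α]
          ring
        · rw [hlin, (hY1 _ h1).2 γ hγ, (hY1 _ h3).2 γ hγ]
          ring
    · obtain ⟨x, hx1, hx2⟩ := exists_between_fin (Y.filter fun y => α y < 0)
        (Y.filter fun y => 0 < α y) (fun y => (∑ s ∈ t, y s * β s) / α y)
        (fun y => (∑ s ∈ t, y s * β s) / α y) (by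
          intro y2 h2 y1 h1
          have := hβ _ (mem_union_right _ (mem_image_of_mem _ (mk_mem_product h1 h2)))
          rw [hlin] at this
          rw [mem_filter] at h1 h2
          rw [le_div_iff₀ h1.2, div_mul_eq_mul_div, div_le_iff_of_neg h2.2]
          linarith)
      obtain ⟨w, hw⟩ := hY2 (fun s => β s - A s δ * x) (by
        intro y hy
        have h1 : ∑ s ∈ t, y s * (β s - A s δ * x) = ∑ s ∈ t, y s * β s - α y * x := by
          simp only [α, sum_mul, ← sum_sub_distrib]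
          exact sum_congr rfl fun s _ => by ring
        rw [h1]
        rcases lt_trichotomy (α y) 0 with h | h | h
        · have := hx1 y (mem_filter.2 ⟨hy, h⟩)
          rw [div_le_iff_of_neg h] at this
          linarith
        · have := hβ y (mem_union_left _ (mem_filter.2 ⟨hy, h⟩))
          rw [h]
          linarith
        · have := hx2 y (mem_filter.2 ⟨hy, h⟩)
          rw [le_div_iff₀ h] at this
          linarith)
      refine ⟨Function.update w δ x, fun s hs => ?_⟩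
      rw [sum_insert hδ, Function.update_self, sum_congr rfl fun γ hγ => by
        rw [Function.update_of_ne (ne_of_mem_of_not_mem hγ hδ)]]
      linarith [hw s hs]

theorem fm_sets {Ω : Type*} [DecidableEq Ω] (F : Finset Ω) :
    ∃ Y : Finset (Finset Ω → ℚ), (∀ a ∈ Y, (0 < ∑ A ∈ F.powerset, |a A|) ∧
      ∀ γ ∈ F, ∑ A ∈ F.powerset, (if γ ∈ A then a A else 0) = 0) ∧
      ∀ (ζ : Finset Ω → ℚ) (c : ℚ), 0 ≤ c →
        (∀ a ∈ Y, |∑ A ∈ F.powerset, a A * ζ A| ≤ c * ∑ A ∈ F.powerset, |a A|) →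
        ∃ w : Ω → ℚ, ∀ A ∈ F.powerset, |ζ A - ∑ γ ∈ A, w γ| ≤ c := by
  classical
  obtain ⟨Y, hY1, hY2⟩ := fm (F.powerset ×ˢ (univ : Finset Bool))
    (fun s γ => if γ ∈ s.1 then cond s.2 1 (-1) else 0) F
  refine ⟨(Y.image fun y A => y (A, true) - y (A, false)).filter
    fun a => 0 < ∑ A ∈ F.powerset, |a A|, ?_, fun ζ c hc h => ?_⟩
  · intro a ha
    obtain ⟨ha, h1⟩ := mem_filter.1 ha
    obtain ⟨y, hy, rfl⟩ := mem_image.1 ha
    refine ⟨h1, fun γ hγ => ?_⟩
    refine Eq.trans ?_ ((hY1 y hy).2 γ hγ)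
    rw [sum_product]
    refine sum_congr rfl fun A _ => ?_
    by_cases h : γ ∈ A <;> simp [h, sub_eq_add_neg]
  · obtain ⟨w, hw⟩ := hY2 (fun s => c + cond s.2 (ζ s.1) (-ζ s.1)) (by
      intro y hy
      have h1 : ∑ s ∈ F.powerset ×ˢ (univ : Finset Bool), y s * (c + cond s.2 (ζ s.1) (-ζ s.1)) =
          c * ∑ A ∈ F.powerset, (y (A, true) + y (A, false)) +
            ∑ A ∈ F.powerset, (y (A, true) - y (A, false)) * ζ A := by
        rw [sum_product, mul_sum, ← sum_add_distrib]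
        refine sum_congr rfl fun A _ => ?_
        simp
        ring
      have h2 : ∑ A ∈ F.powerset, |y (A, true) - y (A, false)| ≤
          ∑ A ∈ F.powerset, (y (A, true) + y (A, false)) := sum_le_sum fun A _ =>
        abs_le.2 ⟨by linarith [(hY1 y hy).1 (A, true)], by linarith [(hY1 y hy).1 (A, false)]⟩
      have h3 : |∑ A ∈ F.powerset, (y (A, true) - y (A, false)) * ζ A| ≤
          c * ∑ A ∈ F.powerset, |y (A, true) - y (A, false)| := by
        by_cases h0 : 0 < ∑ A ∈ F.powerset, |y (A, true) - y (A, false)|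
        · exact h _ (mem_filter.2 ⟨mem_image_of_mem _ hy, h0⟩)
        · have h4 := (sum_eq_zero_iff_of_nonneg fun A _ => abs_nonneg _).1
            (le_antisymm (not_lt.1 h0) (sum_nonneg fun A _ => abs_nonneg _))
          rw [sum_eq_zero fun A hA => by rw [abs_eq_zero.1 (h4 A hA), zero_mul], abs_zero]
          positivity
      rw [h1]
      linarith [mul_le_mul_of_nonneg_left h2 hc, neg_abs_le
        (∑ A ∈ F.powerset, (y (A, true) - y (A, false)) * ζ A)])
    refine ⟨w, fun A hA => ?_⟩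
    have h1 := hw (A, true) (mk_mem_product hA (mem_univ _))
    have h2 := hw (A, false) (mk_mem_product hA (mem_univ _))
    have h3 : F ∩ A = A := inter_eq_right.2 (mem_powerset.1 hA)
    simp only [cond, ite_mul, one_mul, zero_mul, neg_mul, sum_ite_mem, h3, sum_neg_distrib] at h1 h2
    exact abs_le.2 ⟨by linarith, by linarith⟩

end Pool.Agent.Lib.MP_c1e359_an
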