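import Pool.Agent.Lib.MP_5d9fac_lc.Funcs
import Pool.Agent.Lib.MP_c1e359_an.Defs

/-!
The reals of a structure as an ordered field.
-/

namespace Pool.Agent.Lib.MP_c1e359_an

open Pool.Agent.Lib.MP_5d9fac_lc

universe u

variable {M : Type u} {E : M → M → Prop} {F : RF M}

structure Ctx (E : M → M → Prop) (F : RF M) : Prop where
  ext : ∀ a b, (∀ x, E x a ↔ E x b) → a = b
  pair : ∀ a b, ∃ c, IsUPair E c a b
  reals : IsReals E F

theorem Ctx.opair (h : Ctx E F) (a b : M) : ∃ p, IsOPair E p a b := by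
  obtain ⟨s, hs⟩ := h.pair a a
  obtain ⟨t, ht⟩ := h.pair a b
  obtain ⟨p, hp⟩ := h.pair s t
  exact ⟨p, s, t, hs, ht, hp⟩

section Op
variable {f R e : M}

theorem op_ex (h : Ctx E F) (hf : IsCommOp E f R e) {a b : M} (ha : E a R) (hb : E b R) :
    ∃ c, Op E f a b c := by
  obtain ⟨P, hP, hfun⟩ := hf.1
  obtain ⟨p, hp⟩ := h.opair a b
  obtain ⟨c, hc, -⟩ := hfun.2 p ((hP p).2 ⟨a, b, ha, hb, hp⟩)
  exact ⟨c, p, hp, hc⟩

theorem op_unique (h : Ctx E F) (hf : IsCommOp E f R e) {a b c c' : M} (h1 : Op E f a b c)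
    (h2 : Op E f a b c') : c = c' := by
  obtain ⟨P, -, hfun⟩ := hf.1
  obtain ⟨p, hp, hc⟩ := h1
  obtain ⟨p', hp', hc'⟩ := h2
  obtain rfl := opair_unique h.ext hp hp'
  exact hfun.app_unique hc hc'

theorem op_mem (hf : IsCommOp E f R e) {a b c : M} (h1 : Op E f a b c) :
    E a R ∧ E b R ∧ E c R := by
  obtain ⟨P, hP, hfun⟩ := hf.1
  obtain ⟨p, hp, hc⟩ := h1
  obtain ⟨h2, h3⟩ := hfun.app_mem hc
  obtain ⟨a', b', ha, hb, hp'⟩ := (hP p).1 h2
  obtain ⟨rfl, rfl⟩ := opair_inj hp hp'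
  exact ⟨ha, hb, h3⟩

end Op

/-- the reals of the structure -/
def K (_ : Ctx E F) : Type u := {x // E x F.R}

namespace K

variable {h : Ctx E F}

theorem ext {a b : K h} (e : a.1 = b.1) : a = b := Subtype.ext e

noncomputable def op {f e : M} (hf : IsCommOp E f F.R e) (a b : K h) : K h :=
  ⟨(op_ex h hf a.2 b.2).choose, (op_mem hf (op_ex h hf a.2 b.2).choose_spec).2.2⟩

theorem op_spec {f e : M} (hf : IsCommOp E f F.R e) (a b : K h) :
    Op E f a.1 b.1 (op hf a b).1 := (op_ex h hf a.2 b.2).choose_spec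

theorem op_assoc {f e : M} (hf : IsCommOp E f F.R e) (a b c : K h) :
    op hf (op hf a b) c = op hf a (op hf b c) :=
  ext (op_unique h hf (hf.2.1 _ _ _ _ _ _ (op_spec hf a b) (op_spec hf b c) (op_spec hf _ c))
    (op_spec hf a _))

theorem op_comm {f e : M} (hf : IsCommOp E f F.R e) (a b : K h) : op hf a b = op hf b a :=
  ext (op_unique h hf (hf.2.2.1 _ _ _ (op_spec hf a b)) (op_spec hf b a))

theorem op_unit {f e : M} (hf : IsCommOp E f F.R e) (a : K h) :
    op hf ⟨e, hf.2.2.2.1⟩ a = a :=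
  ext (op_unique h hf (op_spec hf ⟨e, hf.2.2.2.1⟩ a) (hf.2.2.2.2 _ a.2))

noncomputable instance : Add (K h) := ⟨op h.reals.1⟩
noncomputable instance : Mul (K h) := ⟨op h.reals.2.1⟩
instance : Zero (K h) := ⟨⟨F.zero, h.reals.1.2.2.2.1⟩⟩
instance : One (K h) := ⟨⟨F.one, h.reals.2.1.2.2.2.1⟩⟩

theorem neg_ex (a : K h) : ∃ b : K h, b + a = 0 := by
  obtain ⟨b, hb⟩ := h.reals.2.2.2.1 a.1 a.2
  exact ⟨⟨b, (op_mem h.reals.1 hb).1⟩,
    ext (op_unique h h.reals.1 (op_spec h.reals.1 ⟨b, (op_mem h.reals.1 hb).1⟩ a) hb)⟩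

theorem inv_ex (a : K h) : ∃ b : K h, (a ≠ 0 → a * b = 1) ∧ (a = 0 → b = 0) := by
  by_cases ha : a = 0
  · exact ⟨0, fun h' => (h' ha).elim, fun _ => rfl⟩
  · obtain ⟨b, hb⟩ := h.reals.2.2.2.2.1 a.1 a.2 fun e => ha (ext e)
    exact ⟨⟨b, (op_mem h.reals.2.1 hb).2.1⟩, fun _ => ext (op_unique h h.reals.2.1
      (op_spec h.reals.2.1 a ⟨b, (op_mem h.reals.2.1 hb).2.1⟩) hb), fun h' => (ha h').elim⟩

noncomputable instance : Neg (K h) := ⟨fun a => (neg_ex a).choose⟩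
noncomputable instance : Inv (K h) := ⟨fun a => (inv_ex a).choose⟩

noncomputable instance : Field (K h) :=
  Field.ofMinimalAxioms (K h) (op_assoc h.reals.1) (op_unit h.reals.1)
    (fun a => (neg_ex a).choose_spec) (op_assoc h.reals.2.1) (op_comm h.reals.2.1)
    (op_unit h.reals.2.1) (fun a => (inv_ex a).choose_spec.1) ((inv_ex 0).choose_spec.2 rfl)
    (fun a b c => ext (op_unique h h.reals.2.1 (op_spec h.reals.2.1 a (b + c))
      (h.reals.2.2.2.2.2.1 _ _ _ _ _ _ _ (op_spec h.reals.1 b c) (op_spec h.reals.2.1 a b)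
        (op_spec h.reals.2.1 a c) (op_spec h.reals.1 (a * b) (a * c)))))
    ⟨0, 1, fun e => h.reals.2.2.1 (congrArg Subtype.val e)⟩

theorem add_spec (a b : K h) : Op E F.add a.1 b.1 (a + b).1 := op_spec h.reals.1 a b
theorem mul_spec (a b : K h) : Op E F.mul a.1 b.1 (a * b).1 := op_spec h.reals.2.1 a b
theorem zero_val : (0 : K h).1 = F.zero := rfl
theorem one_val : (1 : K h).1 = F.one := rfl

theorem add_iff {a b : K h} {c : M} : Op E F.add a.1 b.1 c ↔ c = (a + b).1 :=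
  ⟨fun h' => op_unique h h.reals.1 h' (add_spec a b), fun h' => h' ▸ add_spec a b⟩

theorem mul_iff {a b : K h} {c : M} : Op E F.mul a.1 b.1 c ↔ c = (a * b).1 :=
  ⟨fun h' => op_unique h h.reals.2.1 h' (mul_spec a b), fun h' => h' ▸ mul_spec a b⟩

noncomputable instance : LinearOrder (K h) where
  le a b := App E F.le a.1 b.1
  le_refl a := (h.reals.2.2.2.2.2.2.1 _ _ a.2 a.2).elim id id
  le_trans _ _ _ := h.reals.2.2.2.2.2.2.2.2.1 _ _ _
  le_antisymm _ _ h1 h2 := ext (h.reals.2.2.2.2.2.2.2.1 _ _ h1 h2)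
  le_total a b := h.reals.2.2.2.2.2.2.1 _ _ a.2 b.2
  toDecidableLE := Classical.decRel _

theorem le_iff {a b : K h} : a ≤ b ↔ App E F.le a.1 b.1 := Iff.rfl

instance : IsOrderedAddMonoid (K h) where
  add_le_add_left a b hab c :=
    h.reals.2.2.2.2.2.2.2.2.2.1 _ _ _ _ _ hab (add_spec a c) (add_spec b c)

theorem mul_nonneg' (a b : K h) (ha : 0 ≤ a) (hb : 0 ≤ b) : 0 ≤ a * b :=
  h.reals.2.2.2.2.2.2.2.2.2.2.1 _ _ _ ha hb (mul_spec a b)

instance : ZeroLEOneClass (K h) where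
  zero_le_one := by
    rcases le_total (0 : K h) 1 with h1 | h1
    · exact h1
    · have h2 : (0 : K h) ≤ -1 := by simpa using h1
      simpa using mul_nonneg' _ _ h2 h2

instance : IsOrderedRing (K h) := IsOrderedRing.of_mul_nonneg mul_nonneg'

instance : IsStrictOrderedRing (K h) := inferInstance

theorem complete {S : M} (hS : Sub E S F.R) (a b : K h) (ha : E a.1 S)
    (hb : ∀ s : K h, E s.1 S → s ≤ b) : ∃ l : K h, IsLUB {s : K h | E s.1 S} l := by
  obtain ⟨s, hs, h1, h2⟩ := h.reals.2.2.2.2.2.2.2.2.2.2.2 S hS ⟨_, ha⟩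
    ⟨b.1, b.2, fun x hx => hb ⟨x, hS x hx⟩ hx⟩
  exact ⟨⟨s, hs⟩, fun x hx => h1 _ hx, fun c hc => h2 _ c.2 fun x hx =>
    hc (a := ⟨x, hS x hx⟩) hx⟩

end K

open Classical in
/-- definite description in the reals, zero by default -/
noncomputable def the {h : Ctx E F} (Q : K h → Prop) : K h :=
  if hQ : ∃! s, Q s then hQ.choose else 0

theorem the_eq {h : Ctx E F} {Q : K h → Prop} {s : K h} (hs : Q s) (hu : ∀ t, Q t → t = s) :
    the Q = s := by
  have hQ : ∃! s, Q s := ⟨s, hs, hu⟩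
  rw [the, dif_pos hQ]
  exact hu _ hQ.choose_spec.1

theorem the_iff {h : Ctx E F} {Q : K h → Prop} {s : K h} :
    s = the Q ↔ (Q s ∧ ∀ t, Q t → t = s) ∨ ((¬ ∃ s, Q s ∧ ∀ t, Q t → t = s) ∧ s = 0) := by
  by_cases hQ : ∃! s, Q s
  · obtain ⟨s', h1, h2⟩ := hQ
    rw [the_eq h1 h2]
    refine ⟨?_, ?_⟩
    · rintro rfl
      exact Or.inl ⟨h1, h2⟩
    · rintro (h3 | h3)
      · exact h2 _ h3.1
      · exact (h3.1 ⟨s', h1, h2⟩).elim
  · rw [the, dif_neg hQ]
    refine ⟨fun h3 => Or.inr ⟨hQ, h3⟩, ?_⟩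
    rintro (h3 | h3)
    · exact (hQ ⟨s, h3⟩).elim
    · exact h3.2

variable (h : Ctx E F)

/-- an element of the structure read as a real -/
noncomputable def val (x : M) : K h := the fun s => s.1 = x

/-- an element of the structure read as a real function -/
noncomputable def ev (x : M) (i : M) : K h := the fun s => App E x i s.1

variable {h}

theorem val_coe (a : K h) : val h a.1 = a := the_eq rfl fun _ ht => K.ext ht

theorem val_of_mem {x : M} (hx : E x F.R) : (val h x).1 = x :=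
  congrArg Subtype.val (val_coe (h := h) ⟨x, hx⟩)

variable {x y z A : M}

theorem ev_of_app (hx : IsFun E x A F.R) {i s : M} (hs : App E x i s) : s = (ev h x i).1 := by
  have : ev h x i = ⟨s, (hx.app_mem hs).2⟩ :=
    the_eq hs fun t ht => K.ext (hx.app_unique ht hs)
  rw [this]

theorem app_ev (hx : IsFun E x A F.R) {i : M} (hi : E i A) : App E x i (ev h x i).1 := by
  obtain ⟨s, hs, -⟩ := hx.2 i hi
  rw [← ev_of_app hx hs]
  exact hs

theorem ev_out (hx : IsFun E x A F.R) {i : M} (hi : ¬ E i A) : ev h x i = 0 := by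
  refine (the_iff.2 (Or.inr ⟨?_, rfl⟩)).symm
  rintro ⟨s, hs, -⟩
  exact hi (hx.app_mem hs).1

theorem fun_ext (hx : IsFun E x A F.R) (hy : IsFun E y A F.R) (e : ev h x = ev h y) : x = y := by
  have key : ∀ {x y : M}, IsFun E x A F.R → IsFun E y A F.R → ev h x = ev h y →
      ∀ p, E p x → E p y := by
    intro x y hx hy e p hp
    obtain ⟨a, b, ha, -, hab⟩ := hx.1 p hp
    have h1 : b = (ev h x a).1 := ev_of_app hx ⟨p, hab, hp⟩
    obtain ⟨p', hp', hp2⟩ := app_ev (h := h) hy ha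
    rw [← e, ← h1] at hp'
    rwa [opair_unique h.ext hab hp']
  exact h.ext _ _ fun p => ⟨key hx hy e p, key hy hx e.symm p⟩

theorem dist_iff {s t r : K h} : Dist E F s.1 t.1 r.1 ↔ |s - t| ≤ r := by
  simp only [Dist, K.add_iff, exists_eq_left, ← K.le_iff]
  rw [abs_sub_le_iff, sub_le_iff_le_add', sub_le_iff_le_add']

theorem dist_zero {s r : K h} : Dist E F s.1 F.zero r.1 ↔ |s| ≤ r := by
  rw [← K.zero_val (h := h), dist_iff, sub_zero]

theorem pos_iff {e : K h} : Pos E F e.1 ↔ 0 < e := by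
  rw [Pos, lt_iff_le_and_ne, K.le_iff]
  refine ⟨fun h1 => ⟨h1.2.1, fun e1 => h1.2.2 (congrArg Subtype.val e1).symm⟩,
    fun h1 => ⟨e.2, h1.1, fun e1 => h1.2 (K.ext e1.symm)⟩⟩

/-- bound in the supremum norm -/
def Bd (p : M → K h) (r : K h) : Prop := ∀ i, |p i| ≤ r

theorem normLe_iff' (hx : IsFun E x A F.R) {r : K h} :
    NormLe E F x r.1 ↔ ∀ i, E i A → |ev h x i| ≤ r := by
  refine ⟨fun h1 i hi => dist_zero.1 (h1 i _ (app_ev hx hi)), fun h1 i s hs => ?_⟩
  rw [ev_of_app (h := h) hx hs]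
  exact dist_zero.2 (h1 i (hx.app_mem hs).1)

theorem bd_of (hx : IsFun E x A F.R) {r : K h} (h1 : NormLe E F x r.1) : Bd (ev h x) |r| := by
  intro i
  by_cases hi : E i A
  · exact ((normLe_iff' hx).1 h1 i hi).trans (le_abs_self r)
  · rw [ev_out hx hi, abs_zero]
    exact abs_nonneg r

theorem normLe_of (hx : IsFun E x A F.R) {r : K h} (h1 : Bd (ev h x) r) : NormLe E F x r.1 :=
  (normLe_iff' hx).2 fun i _ => h1 i

theorem comb_iff (hx : IsFun E x A F.R) (hy : IsFun E y A F.R) (hz : IsFun E z A F.R) {a : K h} :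
    Comb E F a.1 x y z ↔ ev h z = a • ev h x + ev h y := by
  refine ⟨fun h1 => funext fun i => ?_, fun h1 i s t v hs ht hv => ?_⟩
  · by_cases hi : E i A
    · obtain ⟨m, h2, h3⟩ := h1 i _ _ _ (app_ev (h := h) hx hi) (app_ev (h := h) hy hi)
        (app_ev (h := h) hz hi)
      rw [K.mul_iff] at h2
      rw [h2, K.add_iff] at h3
      exact K.ext h3
    · simp [ev_out hx hi, ev_out hy hi, ev_out hz hi]
  · rw [ev_of_app (h := h) hx hs, ev_of_app (h := h) hy ht, ev_of_app (h := h) hz hv, h1]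
    exact ⟨_, K.mul_spec _ _, K.add_spec _ _⟩

namespace Bd

variable {p q : M → K h} {r s : K h}

theorem nonneg (hp : Bd p r) : 0 ≤ r := (abs_nonneg _).trans (hp F.R)

theorem mono (hp : Bd p r) (hr : r ≤ s) : Bd p s := fun i => (hp i).trans hr

theorem add (hp : Bd p r) (hq : Bd q s) : Bd (p + q) (r + s) := fun i =>
  (abs_add_le _ _).trans (add_le_add (hp i) (hq i))

theorem neg (hp : Bd p r) : Bd (-p) r := fun i => by simpa using hp i

theorem sub (hp : Bd p r) (hq : Bd q s) : Bd (p - q) (r + s) := by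
  simpa [sub_eq_add_neg] using hp.add hq.neg

theorem smul (a : K h) (hp : Bd p r) : Bd (a • p) (|a| * r) := fun i => by
  simp only [Pi.smul_apply, smul_eq_mul, abs_mul]
  exact mul_le_mul_of_nonneg_left (hp i) (abs_nonneg a)

theorem zero (hr : 0 ≤ r) : Bd (0 : M → K h) r := fun i => by simpa using hr

theorem eq_zero (hp : Bd p 0) : p = 0 := funext fun i => abs_nonpos_iff.1 (hp i)

theorem sum {ι : Type*} (t : Finset ι) {p : ι → M → K h} {r : ι → K h}
    (hp : ∀ j ∈ t, Bd (p j) (r j)) : Bd (∑ j ∈ t, p j) (∑ j ∈ t, r j) := fun i => by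
  rw [Finset.sum_apply]
  exact (Finset.abs_sum_le_sum_abs _ _).trans (Finset.sum_le_sum fun j hj => hp j hj i)

end Bd

end Pool.Agent.Lib.MP_c1e359_an
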