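import Pool.Agent.Lib.MP_c1e359_an.Field

/-!
Clopen properties below a condition, the filter of dense open sets and names.
-/

namespace Pool.Agent.Lib.MP_c1e359_an

open Pool.Agent.Lib.MP_5d9fac_lc Filter

variable {B : Type} [CompleteBooleanAlgebra B]

/-- ultrafilters containing a condition -/
def Pt (q : B) : Type := {W : Ult B // W.In q}

variable {q : B}

/-- clopen properties -/
class Cl (P : Pt q → Prop) : Prop where
  ex_val : ∃ b : B, ∀ W, P W ↔ W.1.In b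

/-- Boolean value -/
noncomputable def tv (P : Pt q → Prop) [h : Cl P] : B := h.ex_val.choose

theorem in_tv (P : Pt q → Prop) [h : Cl P] (W : Pt q) : W.1.In (tv P) ↔ P W :=
  (h.ex_val.choose_spec W).symm

/-- families of elements of the models given by a name -/
class RepM (μ : ∀ W : Pt q, Mod W.1) : Prop where
  ex_name : ∃ n : Name B, ∀ W, μ W = cl W.1 n

instance (n : Name B) : RepM fun W : Pt q => cl W.1 n := ⟨n, fun _ => rfl⟩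

theorem clopen_of (P : Pt q → Prop) [Cl P] : Clopen fun U => ∃ h : U.In q, P ⟨U, h⟩ :=
  ⟨q ⊓ tv P, fun U => by
    rw [U.inf_iff]
    exact ⟨fun ⟨h, h1⟩ => ⟨h, (in_tv P ⟨U, h⟩).2 h1⟩, fun ⟨h, h1⟩ => ⟨h, (in_tv P ⟨U, h⟩).1 h1⟩⟩⟩

theorem maxp (Q : ∀ W : Pt q, Mod W.1 → Prop) [∀ n : Name B, Cl fun W => Q W (cl W.1 n)] :
    ∃ m : Name B, ∀ W, (∃ x, Q W x) → Q W (cl W.1 m) := by
  have : ∀ n : Name B, Clopen fun U => ∃ h : U.In q, Q ⟨U, h⟩ (cl U n) := fun n =>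
    clopen_of fun W => Q W (cl W.1 n)
  obtain ⟨m, hm⟩ := max_principle fun U x => ∃ h : U.In q, Q ⟨U, h⟩ x
  refine ⟨m, fun W ⟨x, hx⟩ => ?_⟩
  obtain ⟨_, h⟩ := hm W.1 ⟨x, W.2, hx⟩
  exact h

theorem exists_sep (Q : ∀ W : Pt q, Mod W.1 → Prop) [∀ n : Name B, Cl fun W => Q W (cl W.1 n)]
    (a : Name B) : ∃ s : Name B, ∀ (W : Pt q) x,
      Mem W.1 x (cl W.1 s) ↔ Mem W.1 x (cl W.1 a) ∧ Q W x := by
  have : ∀ n : Name B, Clopen fun U => ∃ h : U.In q, Q ⟨U, h⟩ (cl U n) := fun n =>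
    clopen_of fun W => Q W (cl W.1 n)
  refine ⟨sepN (fun U x => ∃ h : U.In q, Q ⟨U, h⟩ x) a, fun W x => ?_⟩
  rw [mem_sepN]
  exact and_congr_right fun _ => ⟨fun ⟨_, h⟩ => h, fun h => ⟨W.2, h⟩⟩

namespace Cl

variable {P Q : Pt q → Prop}

theorem of_iff (Q : Pt q → Prop) [h : Cl Q] (e : ∀ W, P W ↔ Q W) : Cl P :=
  ⟨tv Q, fun W => (e W).trans (in_tv Q W).symm⟩

instance of_in (b : B) : Cl fun W : Pt q => W.1.In b := ⟨b, fun _ => Iff.rfl⟩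

instance mem (μ ν : ∀ W : Pt q, Mod W.1) [h1 : RepM μ] [h2 : RepM ν] :
    Cl fun W => Mem W.1 (μ W) (ν W) := by
  obtain ⟨x, hx⟩ := h1.ex_name
  obtain ⟨y, hy⟩ := h2.ex_name
  exact ⟨_, fun W => by rw [hx, hy]; exact mem_cl W.1 x y⟩

instance eq (μ ν : ∀ W : Pt q, Mod W.1) [h1 : RepM μ] [h2 : RepM ν] :
    Cl fun W => μ W = ν W := by
  obtain ⟨x, hx⟩ := h1.ex_name
  obtain ⟨y, hy⟩ := h2.ex_name
  exact ⟨_, fun W => by rw [hx, hy]; exact cl_eq W.1 x y⟩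

instance not [Cl P] : Cl fun W => ¬ P W :=
  ⟨(tv P)ᶜ, fun W => by rw [W.1.compl_iff, in_tv]⟩

instance and [Cl P] [Cl Q] : Cl fun W => P W ∧ Q W :=
  ⟨tv P ⊓ tv Q, fun W => by rw [W.1.inf_iff, in_tv, in_tv]⟩

instance or [Cl P] [Cl Q] : Cl fun W => P W ∨ Q W :=
  ⟨tv P ⊔ tv Q, fun W => by rw [W.1.sup_iff, in_tv, in_tv]⟩

instance imp [Cl P] [Cl Q] : Cl fun W => P W → Q W :=
  ⟨tv P ⇨ tv Q, fun W => by rw [W.1.himp_iff, in_tv, in_tv]⟩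

instance iff [Cl P] [Cl Q] : Cl fun W => P W ↔ Q W := by
  simp only [iff_iff_implies_and_implies]
  infer_instance

instance const (p : Prop) : Cl fun _ : Pt q => p := by
  by_cases h : p
  · exact ⟨⊤, fun W => ⟨fun _ => W.1.top, fun _ => h⟩⟩
  · exact ⟨⊥, fun W => ⟨fun h' => (h h').elim, fun h' => (W.1.not_bot h').elim⟩⟩

instance ex {Q : ∀ W : Pt q, Mod W.1 → Prop} [∀ n : Name B, Cl fun W => Q W (cl W.1 n)] :
    Cl fun W => ∃ x, Q W x := by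
  obtain ⟨m, hm⟩ := maxp Q
  exact of_iff (fun W => Q W (cl W.1 m)) fun W => ⟨hm W, fun h => ⟨_, h⟩⟩

instance all {Q : ∀ W : Pt q, Mod W.1 → Prop} [∀ n : Name B, Cl fun W => Q W (cl W.1 n)] :
    Cl fun W => ∀ x, Q W x :=
  of_iff (fun W => ¬ ∃ x, ¬ Q W x) fun W => by simp

instance exu {Q : ∀ W : Pt q, Mod W.1 → Prop} [∀ n : Name B, Cl fun W => Q W (cl W.1 n)] :
    Cl fun W => ∃! x, Q W x :=
  of_iff (fun W => ∃ x, Q W x ∧ ∀ y, Q W y → y = x) fun _ => Iff.rfl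

instance ball {ι : Type*} (s : Finset ι) {P : ι → Pt q → Prop} [∀ i, Cl (P i)] :
    Cl fun W => ∀ i ∈ s, P i W := by
  classical
  induction s using Finset.induction_on with
  | empty => exact of_iff (fun _ => True) fun W => by simp
  | insert a s _ ih => exact of_iff (fun W => P a W ∧ ∀ i ∈ s, P i W) fun W => by simp

instance bex {ι : Type*} (s : Finset ι) {P : ι → Pt q → Prop} [∀ i, Cl (P i)] :
    Cl fun W => ∃ i ∈ s, P i W :=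
  of_iff (fun W => ¬ ∀ i ∈ s, ¬ P i W) fun W => by simp

section
variable (a b c d : ∀ W : Pt q, Mod W.1) [RepM a] [RepM b] [RepM c] [RepM d]

instance : Cl fun W => Sub (Mem W.1) (a W) (b W) := by
  unfold MP_5d9fac_lc.Sub; infer_instance
instance : Cl fun W => IsUPair (Mem W.1) (a W) (b W) (c W) := by unfold IsUPair; infer_instance
instance : Cl fun W => IsOPair (Mem W.1) (a W) (b W) (c W) := by unfold IsOPair; infer_instance
instance : Cl fun W => App (Mem W.1) (a W) (b W) (c W) := by unfold App; infer_instance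
instance : Cl fun W => IsFun (Mem W.1) (a W) (b W) (c W) := by unfold IsFun; infer_instance
instance : Cl fun W => Op (Mem W.1) (a W) (b W) (c W) (d W) := by unfold Op; infer_instance
end

end Cl

/-- the filter generated by the dense open sets -/
def gen (q : B) : Filter (Pt q) where
  sets := {s | ∀ (W0 : Pt q) b, W0.1.In b →
    ∃ (W1 : Pt q) (b' : B), W1.1.In b' ∧ b' ≤ b ∧ ∀ W : Pt q, W.1.In b' → W ∈ s}
  univ_sets := fun W0 b h => ⟨W0, b, h, le_rfl, fun _ _ => trivial⟩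
  sets_of_superset := fun hs hst W0 b h => by
    obtain ⟨W1, b', h1, h2, h3⟩ := hs W0 b h
    exact ⟨W1, b', h1, h2, fun W hW => hst (h3 W hW)⟩
  inter_sets := fun hs ht W0 b h => by
    obtain ⟨W1, b', h1, h2, h3⟩ := hs W0 b h
    obtain ⟨W2, b'', h4, h5, h6⟩ := ht W1 b' h1
    exact ⟨W2, b'', h4, h5.trans h2, fun W hW => ⟨h3 W (W.1.mono h5 hW), h6 W hW⟩⟩

theorem gen_iff {P : Pt q → Prop} : (∀ᶠ W in gen q, P W) ↔ ∀ (W0 : Pt q) b, W0.1.In b →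
    ∃ (W1 : Pt q) (b' : B), W1.1.In b' ∧ b' ≤ b ∧ ∀ W : Pt q, W.1.In b' → P W := Iff.rfl

theorem of_gen (Q : Pt q → Prop) [Cl Q] (h : ∀ᶠ W in gen q, Q W) (W : Pt q) : Q W := by
  by_contra hc
  obtain ⟨W1, b', h1, h2, h3⟩ := gen_iff.1 h W (tv Q)ᶜ
    (W.1.compl_iff.2 fun h' => hc ((in_tv Q W).1 h'))
  exact W1.1.compl_iff.1 (W1.1.mono h2 h1) ((in_tv Q W1).2 (h3 W1 h1))

theorem gen_iSup {ι : Sort*} (f : ι → B) :
    ∀ᶠ W in gen q, W.1.In (⨆ i, f i) → ∃ i, W.1.In (f i) := by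
  refine gen_iff.2 fun W0 b hb => ?_
  by_cases h : W0.1.In (⨆ i, f i)
  · obtain ⟨i, W, h1, h2⟩ := W0.1.exists_iSup h (W0.1.inf hb W0.2)
    exact ⟨⟨W, (W.inf_iff.1 h1).2⟩, b ⊓ f i, W.inf (W.inf_iff.1 h1).1 h2, inf_le_left,
      fun V hV _ => ⟨i, (V.1.inf_iff.1 hV).2⟩⟩
  · exact ⟨W0, b ⊓ (⨆ i, f i)ᶜ, W0.1.inf hb (W0.1.compl_iff.2 h), inf_le_left,
      fun V hV h' => (V.1.compl_iff.1 (V.1.inf_iff.1 hV).2 h').elim⟩

theorem gen_bind {ι : Sort*} {P Q : ι → Pt q → Prop} [∀ i, Cl (P i)] {R : Pt q → Prop}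
    (h1 : ∀ᶠ W in gen q, R W → ∃ i, P i W) (h2 : ∀ i, ∀ᶠ W in gen q, Q i W) :
    ∀ᶠ W in gen q, R W → ∃ i, P i W ∧ Q i W := by
  refine gen_iff.2 fun W0 b hb => ?_
  obtain ⟨W1, b', h3, h4, h5⟩ := gen_iff.1 h1 W0 b hb
  by_cases h : ∃ W : Pt q, W.1.In b' ∧ ∃ i, P i W
  · obtain ⟨W, h6, i, h7⟩ := h
    obtain ⟨W2, b'', h8, h9, h10⟩ := gen_iff.1 (h2 i) W (b' ⊓ tv (P i))
      (W.1.inf h6 ((in_tv _ W).2 h7))
    exact ⟨W2, b'', h8, h9.trans (inf_le_left.trans h4), fun V hV _ =>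
      ⟨i, (in_tv _ V).1 (V.1.mono (h9.trans inf_le_right) hV), h10 V hV⟩⟩
  · exact ⟨W1, b', h3, h4, fun V hV hR => (h ⟨V, hV, h5 V hV hR⟩).elim⟩

theorem gen_bind' {ι : Sort*} {P Q : ι → Pt q → Prop} [∀ i, Cl (P i)]
    (h1 : ∀ᶠ W in gen q, ∃ i, P i W) (h2 : ∀ i, ∀ᶠ W in gen q, Q i W) :
    ∀ᶠ W in gen q, ∃ i, P i W ∧ Q i W :=
  (gen_bind (R := fun _ => True) (h1.mono fun _ h _ => h) h2).mono fun _ h => h trivial

theorem in_iInf {ι : Sort*} (P : Pt q → Prop) [Cl P] {f : ι → B}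
    (h : ∀ i W, P W → W.1.In (f i)) (W : Pt q) (hW : P W) : W.1.In (⨅ i, f i) :=
  W.1.iInf_intro (W.1.inf W.2 ((in_tv P W).2 hW)) fun i V hV =>
    h i ⟨V, (V.inf_iff.1 hV).1⟩ ((in_tv P ⟨V, (V.inf_iff.1 hV).1⟩).1 (V.inf_iff.1 hV).2)

theorem gen_mem (n x : Name B) : ∀ᶠ W in gen q, Mem W.1 (cl W.1 n) (cl W.1 x) →
    ∃ i, W.1.In (x.wt i) ∧ cl W.1 n = cl W.1 (x.ch i) := by
  filter_upwards [gen_iSup fun i => x.wt i ⊓ Name.beq n (x.ch i)] with W h1 h2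
  obtain ⟨i, hi⟩ := h1 h2
  exact ⟨i, (W.1.inf_iff.1 hi).1, (cl_eq _ _ _).2 (W.1.inf_iff.1 hi).2⟩

theorem mem_ind' (Q : ∀ W : Pt q, Mod W.1 → Prop) [∀ n : Name B, Cl fun W => Q W (cl W.1 n)]
    (x : Name B) (H : ∀ i (W : Pt q), W.1.In (x.wt i) → Q W (cl W.1 (x.ch i))) (W : Pt q)
    (z : Mod W.1) (hz : Mem W.1 z (cl W.1 x)) : Q W z := by
  obtain ⟨n, rfl⟩ := cl_surj W.1 z
  refine of_gen (fun W => Mem W.1 (cl W.1 n) (cl W.1 x) → Q W (cl W.1 n)) ?_ W hz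
  filter_upwards [gen_mem n x] with W h1 h2
  obtain ⟨i, h3, h4⟩ := h1 h2
  rw [h4]
  exact H i W h3

theorem mk_ind (Q : ∀ W : Pt q, Mod W.1 → Prop) [∀ n : Name B, Cl fun W => Q W (cl W.1 n)]
    {α : Type} {A : α → Name B} {v : α → B}
    (H : ∀ i (W : Pt q), W.1.In (v i) → Q W (cl W.1 (A i))) (W : Pt q)
    (z : Mod W.1) (hz : Mem W.1 z (cl W.1 (Name.mk α A v))) : Q W z :=
  mem_ind' Q (Name.mk α A v) H W z hz

/-- The graph of an extensional map on names. -/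
theorem exists_graph (a Y : Name B) (φ : Name B → Name B)
    (h1 : ∀ (W : Pt q) n m, Mem W.1 (cl W.1 n) (cl W.1 a) → cl W.1 n = cl W.1 m →
      cl W.1 (φ n) = cl W.1 (φ m))
    (h2 : ∀ (W : Pt q) n, Mem W.1 (cl W.1 n) (cl W.1 a) → Mem W.1 (cl W.1 (φ n)) (cl W.1 Y)) :
    ∃ T : Name B, ∀ W : Pt q, IsFun (Mem W.1) (cl W.1 T) (cl W.1 a) (cl W.1 Y) ∧
      ∀ n, Mem W.1 (cl W.1 n) (cl W.1 a) → App (Mem W.1) (cl W.1 T) (cl W.1 n) (cl W.1 (φ n)) := by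
  let T : Name B := Name.mk a.Idx (fun i => opairN (a.ch i) (φ (a.ch i))) a.wt
  have e1 : ∀ n (W : Pt q), Mem W.1 (cl W.1 n) (cl W.1 a) →
      App (Mem W.1) (cl W.1 T) (cl W.1 n) (cl W.1 (φ n)) := by
    intro n
    refine of_gen _ ?_
    filter_upwards [gen_mem n a] with W h3 h4
    obtain ⟨i, h5, h6⟩ := h3 h4
    rw [h1 W n _ h4 h6, h6]
    exact ⟨_, isOPair_opairN _ _ _, mem_mk (A := fun i => opairN (a.ch i) (φ (a.ch i))) i h5⟩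
  refine ⟨T, fun W => ⟨⟨?_, fun x hx => ?_⟩, fun n => e1 n W⟩⟩
  · refine mk_ind (fun W p => ∃ x y, Mem W.1 x (cl W.1 a) ∧ Mem W.1 y (cl W.1 Y) ∧
      IsOPair (Mem W.1) p x y) (fun i W hi => ?_) W
    exact ⟨_, _, mem_of_wt hi, h2 W _ (mem_of_wt hi), isOPair_opairN _ _ _⟩
  · obtain ⟨n, rfl⟩ := cl_surj W.1 x
    refine ⟨_, e1 n W hx, ?_⟩
    rintro y ⟨p, hp1, hp2⟩
    refine mk_ind (fun W p => ∀ y, IsOPair (Mem W.1) p (cl W.1 n) y → y = cl W.1 (φ n))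
      (fun i W hi y hy => ?_) W p hp2 y hp1
    obtain ⟨h3, rfl⟩ := opair_inj hy (isOPair_opairN _ _ _)
    exact h1 W _ _ (mem_of_wt hi) h3.symm

end Pool.Agent.Lib.MP_c1e359_an
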