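import Pool.Agent.Lib.MP_c1e359_an.Spaces
import Pool.Agent.Lib.MP_c1e359_an.Core
import Pool.Agent.Lib.MP_c1e359_an.FM

/-!
Lifting the unit vectors with bounded finite sums.
-/

namespace Pool.Agent.Lib.MP_c1e359_an

open Pool.Agent.Lib.MP_5d9fac_lc Filter Cardinal Finset

variable {B : Type} [CompleteBooleanAlgebra B] {S : Base B} {ι : Type}

theorem exists_fun_ix (X : Ix S.q ι) (ν : ι → ∀ W : Pt S.q, S.KK W) [h : ∀ i, Rep (ν i)] :
    ∃ y : Name B, ∀ W : Pt S.q, IsFun (Mem W.1) (cl W.1 y) (cl W.1 X.A) (clF W.1 S.N).R ∧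
      ∀ i, ev (S.ctx W) (cl W.1 y) (cl W.1 (X.e i)) = ν i W := by
  choose n hn using fun i => (h i).ex_name
  let T : Name B := Name.mk ι (fun i => opairN (X.e i) (n i)) fun _ => ⊤
  obtain ⟨y, hy⟩ := exists_fun X.A fun W : Pt S.q => ev (S.ctx W) (cl W.1 T)
  refine ⟨y, fun W => ⟨(hy W).1, fun i => ((hy W).2 _ (X.mem W i)).trans (the_eq ?_ ?_)⟩⟩
  · rw [hn]
    exact ⟨_, isOPair_opairN _ _ _, mem_mk (A := fun i => opairN (X.e i) (n i)) i W.1.top⟩
  · rintro t ⟨p, h1, h2⟩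
    refine K.ext (mk_ind (fun W p => ∀ y, IsOPair (Mem W.1) p (cl W.1 (X.e i)) y → y = (ν i W).1)
      (fun j V _ y hy => ?_) W p h2 _ h1)
    obtain ⟨h3, rfl⟩ := opair_inj hy (isOPair_opairN _ _ _)
    rw [X.inj V _ _ h3, hn]

theorem pair_sum_mem {L V V' κ : Type*} [Field L] [AddCommGroup V] [Module L V] [AddCommGroup V']
    [Module L V'] (N : Submodule L (V × V')) (s : Finset κ) (p : κ → V) (q : κ → V')
    (h : ∀ i ∈ s, (p i, q i) ∈ N) : (∑ i ∈ s, p i, ∑ i ∈ s, q i) ∈ N := by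
  rw [prod_mk_sum]
  exact N.sum_mem h

open Classical in
/-- unit vectors -/
noncomputable def dl (X : Ix S.q ι) (γ : ι) (W : Pt S.q) (x : Mod W.1) : S.KK W :=
  if x = cl W.1 (X.e γ) then 1 else 0

instance (X : Ix S.q ι) (γ : ι) : RepV (dl X γ) := ⟨fun _ => by unfold dl; infer_instance⟩

theorem sum_dl_in {X : Ix S.q ι} {W : Pt S.q} {F : Finset ι} (α : ι → S.KK W) {γ : ι}
    (hγ : γ ∈ F) : (∑ δ ∈ F, α δ • dl X δ W) (cl W.1 (X.e γ)) = α γ := by
  rw [Finset.sum_apply, sum_eq_single_of_mem γ hγ fun δ _ h => by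
    simp [dl, mt (X.inj W γ δ) h.symm]]
  simp [dl]

theorem sum_dl_out {X : Ix S.q ι} {W : Pt S.q} {F : Finset ι} (α : ι → S.KK W) {x : Mod W.1}
    (hx : ¬ ∃ γ ∈ F, x = cl W.1 (X.e γ)) : (∑ δ ∈ F, α δ • dl X δ W) x = 0 := by
  rw [Finset.sum_apply]
  refine sum_eq_zero fun δ hδ => ?_
  have : x ≠ cl W.1 (X.e δ) := fun h => hx ⟨δ, hδ, h⟩
  simp [dl, this]

namespace Data

variable (D : Data S ι)

theorem dl_mem (γ : ι) (W : Pt S.q) : dl D.X γ W ∈ D.GC W := by
  obtain ⟨y, hy⟩ := exists_fun D.X.A (dl D.X γ)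
  refine ⟨_, c0_of_off (D.h1 W) (hy W).1 (s := {γ}) fun x hx => ?_, funext fun x => ?_⟩
  · by_cases h : x = cl W.1 (D.X.e γ)
    · exact Or.inl ⟨γ, mem_singleton_self _, h⟩
    · simp [(hy W).2 x hx, dl, h]
  · by_cases hx : Mem W.1 x (cl W.1 D.X.A)
    · exact (hy W).2 x hx
    · have : x ≠ cl W.1 (D.X.e γ) := fun h => hx (h ▸ D.X.mem W γ)
      rw [ev_out (hy W).1 hx, dl, if_neg this]

theorem exists_w (hB : LinkedMA B) (hι : #ι ≤ ℵ₁) :
    ∃ (w : ι → ∀ W : Pt S.q, Mod W.1 → S.KK W) (c : ℕ), (∀ γ, RepV (w γ)) ∧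
      (∀ γ W, (dl D.X γ W, w γ W) ∈ D.GF W) ∧ ∀ (A : Finset ι) W, Bd (∑ γ ∈ A, w γ W) c := by
  classical
  choose a ha using fun A : Finset ι => maxp fun (W : Pt S.q) u =>
    (∑ γ ∈ A, dl D.X γ W, ev (S.ctx W) u) ∈ D.GF W ∧ Bd (ev (S.ctx W) u) (D.C * 1 + 1)
  replace ha := fun A W => ha A W (GF_bd ((D.GC W).sum_mem fun γ _ => D.dl_mem γ W)
    (fun x => by
      have h1 : ∑ γ ∈ A, dl D.X γ W = ∑ γ ∈ A, (1 : S.KK W) • dl D.X γ W := by simp
      rw [h1]
      by_cases hx : ∃ γ ∈ A, x = cl W.1 (D.X.e γ)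
      · obtain ⟨γ, hγ, rfl⟩ := hx
        rw [sum_dl_in (fun _ => 1) hγ, abs_one]
      · rw [sum_dl_out (fun _ => 1) hx, abs_zero]
        exact zero_le_one) one_pos)
  have hu : ∀ γ W, (dl D.X γ W, ev (S.ctx W) (cl W.1 (a {γ}))) ∈ D.GF W := fun γ W => by
    simpa using (ha {γ} W).1
  choose z hz using fun A : Finset ι => maxp fun (W : Pt S.q) z => (ev (S.ctx W) z,
    ∑ γ ∈ A, ev (S.ctx W) (cl W.1 (a {γ})) - ev (S.ctx W) (cl W.1 (a A))) ∈ D.GJ W
  replace hz := fun A W => hz A W (by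
    obtain ⟨p, hp⟩ := GF_diff (pair_sum_mem _ A _ _ fun γ _ => hu γ W) (ha A W).1
    obtain ⟨z, _, -, h1, -⟩ := D.mem_GJ.1 hp
    exact ⟨z, h1 ▸ hp⟩)
  obtain ⟨ν, hν1, hν2⟩ := core
    (ζ := fun A m W => ev (S.ctx W) (cl W.1 (z A)) (cl W.1 ((ixN S.q).e m))) (c := D.C + 4) hB hι
    (by positivity) fun F => by
      obtain ⟨Y, hY1, hY2⟩ := fm_sets F
      let ε : (Finset ι → ℚ) → ℚ := fun y => (∑ A ∈ F.powerset, |y A|) / 2
      let κ : (Finset ι → ℚ) → ℚ := fun y => (D.C + 1) * ∑ A ∈ F.powerset, |y A|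
      filter_upwards [Y.eventually_all.2 fun y _ => gen_GJ (D := D)
        (fun W => ∑ A ∈ F.powerset, (y A : S.KK W) • ev (S.ctx W) (cl W.1 (z A)))
        (fun W => ∑ A ∈ F.powerset, (y A : S.KK W) • (∑ γ ∈ A, ev (S.ctx W) (cl W.1 (a {γ})) -
          ev (S.ctx W) (cl W.1 (a A))))
        (fun W => ((κ y : ℚ) : S.KK W))
        (fun W => ((ε y : ℚ) : S.KK W))] with W h1
      have h2 := fun y hy => h1 y hy
        (pair_sum_mem _ _ _ _ fun A _ => (D.GJ W).smul_mem (y A : S.KK W) (hz A W))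
        (by
          have h3 : ∑ A ∈ F.powerset, (y A : S.KK W) • ∑ γ ∈ A, ev (S.ctx W) (cl W.1 (a {γ})) =
              0 := by
            have h4 : ∀ A ∈ F.powerset, (y A : S.KK W) • ∑ γ ∈ A, ev (S.ctx W) (cl W.1 (a {γ})) =
                ∑ γ ∈ F, ((if γ ∈ A then y A else 0 : ℚ) : S.KK W) •
                  ev (S.ctx W) (cl W.1 (a {γ})) := fun A hA => by
              rw [smul_sum]
              refine (sum_congr rfl fun γ hγ => by rw [if_pos hγ]).trans
                (sum_subset (mem_powerset.1 hA) fun γ _ hγ => by simp [hγ])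
            rw [sum_congr rfl h4, sum_comm]
            refine sum_eq_zero fun γ hγ => ?_
            rw [← sum_smul, ← Rat.cast_sum, (hY1 y hy).2 γ hγ]
            simp
          simp only [smul_sub, Finset.sum_sub_distrib, h3, zero_sub]
          refine (Bd.sum _ fun A _ => (ha A W).2.smul _).neg.mono (le_of_eq ?_)
          simp only [κ]
          push_cast
          rw [mul_sum]
          exact sum_congr rfl fun A _ => by ring)
        (by exact_mod_cast half_pos (hY1 y hy).1)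
      choose! s hs using h2
      refine ⟨Y.sup (fun y => (s y).sup id) + 1, in_iInf (fun W => ∀ y ∈ Y, Off (ixN S.q) W (s y)
        (∑ A ∈ F.powerset, (y A : S.KK W) • ev (S.ctx W) (cl W.1 (z A)))
        (((κ y : ℚ) : S.KK W) +
          2 * ((ε y : ℚ) : S.KK W))) (fun m V hV => ?_) W hs⟩
      by_cases hm : Y.sup (fun y => (s y).sup id) + 1 ≤ m
      swap
      · simp [hm, V.1.top]
      rw [iInf_pos hm]
      revert V
      refine of_gen _ ?_
      filter_upwards [F.powerset.eventually_all.2 fun A _ => gen_rat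
        (fun W => ev (S.ctx W) (cl W.1 (z A)) (cl W.1 ((ixN S.q).e m))) one_pos] with V h3 hV
      choose! t ht using h3
      obtain ⟨w, hw⟩ := hY2 t (D.C + 3) (by positivity) fun y hy => by
        have h4 := (hV y hy).le (i := m) fun h => absurd ((le_sup (f := id) h).trans
          (le_sup (f := fun y => (s y).sup id) hy)) (by simpa using hm)
        simp only [Finset.sum_apply, Pi.smul_apply, smul_eq_mul, ε, κ] at h4
        have h5 : |∑ A ∈ F.powerset, (y A : S.KK V) * (t A -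
            ev (S.ctx V) (cl V.1 (z A)) (cl V.1 ((ixN S.q).e m)))| ≤
            ∑ A ∈ F.powerset, |(y A : S.KK V)| :=
          (abs_sum_le_sum_abs _ _).trans (sum_le_sum fun A hA => by
            rw [abs_mul, abs_sub_comm]
            exact mul_le_of_le_one_right (abs_nonneg _) (by simpa using ht A hA))
        simp only [mul_sub, Finset.sum_sub_distrib] at h5
        rw [← Rat.cast_le (K := S.KK V)]
        push_cast at h4 ⊢
        rw [abs_le] at h4 h5 ⊢
        constructor <;> linarith [h4.1, h4.2, h5.1, h5.2]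
      refine V.1.iSup_intro w ((in_tv _ V).2 fun A hA => ?_)
      have h4 := abs_le.1 (ht A hA)
      have h5 := (Rat.cast_le (K := S.KK V)).2 (hw A hA)
      push_cast at h4 h5 ⊢
      rw [abs_le] at h5 ⊢
      constructor <;> linarith [h4.1, h4.2, h5.1, h5.2]
  choose v hv using fun γ => exists_fun_ix (ixN S.q) (ν γ)
  choose j hj using fun γ => maxp fun (W : Pt S.q) j =>
    (ev (S.ctx W) (cl W.1 (v γ)), ev (S.ctx W) j) ∈ D.GJ W
  replace hj := fun γ W => hj γ W (GJ_of_mem (of_gen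
    (fun W => Mem W.1 (cl W.1 (v γ)) (cl W.1 D.lw)) (by
      filter_upwards [hν2 {γ}] with W ⟨n, M, b, h1, h2⟩
      obtain ⟨z', _, h3, h4, -⟩ := D.mem_GJ.1 (hz {γ} W)
      obtain ⟨-, t, ht⟩ := (linf_iff (D.hw W)).1 ((D.hJ W).1.app_mem h3).1
      rw [h4] at ht
      refine (linf_iff (D.hw W)).2 ⟨(hv γ W).1, |(M : S.KK W)| + 3 * (D.C + 4) + t, fun x => ?_⟩
      by_cases hx : Mem W.1 x (cl W.1 (ixN S.q).A)
      · refine ((ixN S.q).ind (fun W x => W.1.In b → |ev (S.ctx W) (cl W.1 (v γ)) x| ≤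
          |(M : S.KK W)| + 3 * (D.C + 4) + |ev (S.ctx W) (cl W.1 (z {γ})) x|) (fun m V hV => ?_)
          W x hx h1).trans (by linarith [ht x])
        rw [(hv γ V).2]
        rcases lt_or_ge m n with h | h
        · refine ((h2 V hV).2 γ (mem_singleton_self _) m h).trans ((le_abs_self _).trans ?_)
          rw [add_assoc]
          exact le_add_of_nonneg_right (by positivity)
        · have h5 := (h2 V hV).1 m h
          rw [sum_singleton, abs_sub_comm] at h5
          push_cast at h5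
          linarith [abs_sub_abs_le_abs_sub (ν γ m V)
            (ev (S.ctx V) (cl V.1 (z {γ})) (cl V.1 ((ixN S.q).e m))), abs_nonneg (M : S.KK V)]
      · rw [ev_out (hv γ W).1 hx, abs_zero]
        have := ht.nonneg
        positivity) W))
  refine ⟨fun γ W => ev (S.ctx W) (cl W.1 (a {γ})) - ev (S.ctx W) (cl W.1 (j γ)),
    4 * D.C + 13, inferInstance, fun γ W => GF_sub (hu γ W) (hj γ W), fun A => of_gen _ ?_⟩
  filter_upwards [hν2 A] with W ⟨n, M, b, h1, h2⟩
  have h3 := GJ_bd ((D.GJ W).sub_mem (hz A W) (pair_sum_mem _ A _ _ fun γ _ => hj γ W))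
    (off_of (range n) (fun W => ev (S.ctx W) (cl W.1 (z A)) -
      ∑ γ ∈ A, ev (S.ctx W) (cl W.1 (v γ))) (fun W => 3 * ((D.C + 4 : ℚ) : S.KK W))
      (fun W => W.1.In b) (fun m hm V hV => by
        simpa [Finset.sum_apply, (hv _ V).2] using (h2 V hV).1 m (by simpa using hm)) W h1)
    (by positivity)
  have h4 := h3.add (ha A W).2
  rw [Finset.sum_sub_distrib]
  rw [sub_right_comm, sub_add_cancel] at h4
  refine h4.mono (le_of_eq ?_)
  push_cast
  ring

end Data

end Pool.Agent.Lib.MP_c1e359_an
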