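import Pool.Agent.Lib.MP_c1e359_an.Lift

/-!
Extension of the lifting from the unit vectors to the whole space.
-/

namespace Pool.Agent.Lib.MP_c1e359_an

open Pool.Agent.Lib.MP_5d9fac_lc Filter Cardinal Finset

variable {B : Type} [CompleteBooleanAlgebra B] {S : Base B} {ι : Type}

theorem bd_of_subsets {M : Type*} {E : M → M → Prop} {F : RF M} {h : Ctx E F} {w : ι → M → K h}
    {c r : K h} (hw : ∀ A : Finset ι, Bd (∑ γ ∈ A, w γ) c) (A : Finset ι) (α : ι → K h)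
    (hr : 0 ≤ r) (hα : ∀ γ ∈ A, |α γ| ≤ r) : Bd (∑ γ ∈ A, α γ • w γ) (2 * c * r) := by
  classical
  intro x
  have h1 := abs_le.1 (hw (A.filter fun γ => 0 ≤ w γ x) x)
  have h2 := abs_le.1 (hw (A.filter fun γ => ¬ 0 ≤ w γ x) x)
  rw [Finset.sum_apply] at h1 h2 ⊢
  have h3 : ∑ γ ∈ A, |w γ x| ≤ 2 * c := by
    rw [← sum_filter_add_sum_filter_not A fun γ => 0 ≤ w γ x,
      sum_congr rfl fun γ hγ => abs_of_nonneg (mem_filter.1 hγ).2,
      sum_congr rfl fun γ hγ => abs_of_neg (not_le.1 (mem_filter.1 hγ).2), sum_neg_distrib]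
    linarith [h1.2, h2.1]
  refine (abs_sum_le_sum_abs _ _).trans (le_trans (sum_le_sum fun γ hγ => ?_)
    ((sum_mul _ _ _).symm.le.trans (mul_le_mul_of_nonneg_right h3 hr)))
  rw [Pi.smul_apply, smul_eq_mul, abs_mul, mul_comm]
  exact mul_le_mul_of_nonneg_left (hα γ hγ) (abs_nonneg _)

/-- rational linear combinations -/
noncomputable def lc (g : ι → ∀ W : Pt S.q, Mod W.1 → S.KK W) (d : ι →₀ ℚ) (W : Pt S.q) :
    Mod W.1 → S.KK W := ∑ γ ∈ d.support, (d γ : S.KK W) • g γ W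

instance (g : ι → ∀ W : Pt S.q, Mod W.1 → S.KK W) [∀ γ, RepV (g γ)] (d : ι →₀ ℚ) :
    RepV (lc g d) := by
  unfold lc; infer_instance

theorem lc_eq (g : ι → ∀ W : Pt S.q, Mod W.1 → S.KK W) {d : ι →₀ ℚ} (W : Pt S.q) {F : Finset ι}
    (h : d.support ⊆ F) : lc g d W = ∑ γ ∈ F, (d γ : S.KK W) • g γ W :=
  sum_subset h fun γ _ hγ => by simp [Finsupp.notMem_support_iff.1 hγ]

theorem lc_bd {X : Ix S.q ι} {w : ι → ∀ W : Pt S.q, Mod W.1 → S.KK W} {W : Pt S.q} {c r : S.KK W}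
    (hw : ∀ A : Finset ι, Bd (∑ γ ∈ A, w γ W) c) (d1 d2 d3 : ι →₀ ℚ) (a1 a2 a3 : S.KK W)
    (h : Bd (a1 • lc (dl X) d1 W + a2 • lc (dl X) d2 W + a3 • lc (dl X) d3 W) r) :
    Bd (a1 • lc w d1 W + a2 • lc w d2 W + a3 • lc w d3 W) (2 * c * r) := by
  classical
  have key : ∀ g : ι → ∀ W : Pt S.q, Mod W.1 → S.KK W,
      a1 • lc g d1 W + a2 • lc g d2 W + a3 • lc g d3 W =
      ∑ γ ∈ d1.support ∪ d2.support ∪ d3.support, (a1 * d1 γ + a2 * d2 γ + a3 * d3 γ) • g γ W := by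
    intro g
    rw [lc_eq g W (d := d1) (F := d1.support ∪ d2.support ∪ d3.support)
        (subset_union_left.trans subset_union_left),
      lc_eq g W (d := d2) (F := d1.support ∪ d2.support ∪ d3.support)
        (subset_union_right.trans subset_union_left),
      lc_eq g W (d := d3) (F := d1.support ∪ d2.support ∪ d3.support) subset_union_right]
    simp only [smul_sum, ← Finset.sum_add_distrib, add_smul, mul_smul]
  rw [key] at h ⊢
  refine bd_of_subsets hw _ _ h.nonneg fun γ hγ => ?_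
  have := h (cl W.1 (X.e γ))
  rwa [sum_dl_in _ hγ] at this

namespace Data

variable (D : Data S ι)

theorem dens (n : Name B) {ε : ℚ} (hε : 0 < ε) : ∀ᶠ W in gen S.q,
    Mem W.1 (cl W.1 n) (cl W.1 D.c1) → ∃ d, Bd (ev (S.ctx W) (cl W.1 n) - lc (dl D.X) d W) ε := by
  classical
  filter_upwards [gen_bind (gen_c0 D.h1 (fun W => cl W.1 n) fun W => (ε : S.KK W)) fun s =>
    s.eventually_all.2 fun γ _ =>
      gen_rat (fun W => ev (S.ctx W) (cl W.1 n) (cl W.1 (D.X.e γ))) hε] with W h1 h2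
  have h0 : (0 : S.KK W) < ε := by exact_mod_cast hε
  obtain ⟨s, h3, h4⟩ := h1 ⟨h2, h0⟩
  choose! t ht using h4
  refine ⟨Finsupp.onFinset s (fun γ => if γ ∈ s then t γ else 0)
    fun γ h => by_contra fun h' => h (if_neg h'), fun x => ?_⟩
  rw [lc_eq _ W Finsupp.support_onFinset_subset, Pi.sub_apply]
  by_cases hx : ∃ γ ∈ s, x = cl W.1 (D.X.e γ)
  · obtain ⟨γ, hγ, rfl⟩ := hx
    rw [sum_dl_in _ hγ]
    simpa [hγ] using ht γ hγ
  · rw [sum_dl_out _ hx, sub_zero]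
    by_cases hx' : Mem W.1 x (cl W.1 D.X.A)
    · exact (h3 x hx').resolve_left hx
    · simpa [ev_out (D.fun_1 h2) hx'] using h0.le

theorem exists_lift [Nonempty ι] (hB : LinkedMA B) (hι : #ι ≤ ℵ₁) :
    ∃ T : Name B, ∀ W : Pt S.q,
      IsOperator (Mem W.1) (clF W.1 S.N) (cl W.1 T) (cl W.1 D.c1) (cl W.1 D.lG) ∧
      ∀ x u t, App (Mem W.1) (cl W.1 T) x u → App (Mem W.1) (cl W.1 D.f) x t → Mem W.1 u t := by
  obtain ⟨w, c, hw1, hw2, hw3⟩ := D.exists_w hB hι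
  have h0 : ∀ d W, (lc (dl D.X) d W, lc w d W) ∈ D.GF W := fun d W =>
    pair_sum_mem _ _ _ _ fun γ _ => (D.GF W).smul_mem (d γ : S.KK W) (hw2 γ W)
  choose T hT using fun n : Name B => hyper D.G (I := (ι →₀ ℚ) × ℚ) (fun i => lc w i.1)
    (fun i W => 2 * (c : S.KK W) * (i.2 : S.KK W))
    (fun i W => Bd (ev (S.ctx W) (cl W.1 n) - lc (dl D.X) i.1 W) (i.2 : S.KK W))
    fun i j W hi hj => by
      have h1 := hj.sub hi
      rw [sub_sub_sub_cancel_left, add_comm] at h1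
      simpa [mul_add, sub_eq_add_neg] using lc_bd (hw3 · W) i.1 j.1 0 1 (-1) 0
        (r := i.2 + j.2) (by simpa [sub_eq_add_neg] using h1)
  have h1 : ∀ n d (t : ℚ) W, Bd (ev (S.ctx W) (cl W.1 n) - lc (dl D.X) d W) t →
      Bd (ev (S.ctx W) (cl W.1 (T n)) - lc w d W) (2 * c * t) := by
    intro n d t W h x
    by_cases hx : Mem W.1 x (cl W.1 D.G)
    · exact (hT n W).2 (d, t) h x hx
    · have := h.nonneg
      rw [Pi.sub_apply, ev_out (hT n W).1 hx, GF_out (h0 d W) hx, sub_zero, abs_zero]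
      positivity
  have h2 : ∀ (W : Pt S.q) (x y z : Name B) (a1 a2 a3 r : S.KK W),
      Mem W.1 (cl W.1 x) (cl W.1 D.c1) → Mem W.1 (cl W.1 y) (cl W.1 D.c1) →
      Mem W.1 (cl W.1 z) (cl W.1 D.c1) →
      Bd (a1 • ev (S.ctx W) (cl W.1 x) + a2 • ev (S.ctx W) (cl W.1 y) +
        a3 • ev (S.ctx W) (cl W.1 z)) r →
      Bd (a1 • ev (S.ctx W) (cl W.1 (T x)) + a2 • ev (S.ctx W) (cl W.1 (T y)) +
        a3 • ev (S.ctx W) (cl W.1 (T z))) (2 * c * r) := by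
    intro W x y z a1 a2 a3 r hx hy hz h i
    obtain ⟨a1, rfl⟩ := K_surj a1
    obtain ⟨a2, rfl⟩ := K_surj a2
    obtain ⟨a3, rfl⟩ := K_surj a3
    obtain ⟨r, rfl⟩ := K_surj r
    obtain ⟨i, rfl⟩ := cl_surj W.1 i
    refine le_of_small (fun W => |(val (S.ctx W) (cl W.1 a1) • ev (S.ctx W) (cl W.1 (T x)) +
      val (S.ctx W) (cl W.1 a2) • ev (S.ctx W) (cl W.1 (T y)) +
      val (S.ctx W) (cl W.1 a3) • ev (S.ctx W) (cl W.1 (T z))) (cl W.1 i)|)
      (fun W => 2 * (c : S.KK W) * val (S.ctx W) (cl W.1 r))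
      (fun W => 4 * (c : S.KK W) * (|val (S.ctx W) (cl W.1 a1)| + |val (S.ctx W) (cl W.1 a2)| +
        |val (S.ctx W) (cl W.1 a3)|))
      (fun W => Mem W.1 (cl W.1 x) (cl W.1 D.c1) ∧ Mem W.1 (cl W.1 y) (cl W.1 D.c1) ∧
        Mem W.1 (cl W.1 z) (cl W.1 D.c1) ∧
        Bd (val (S.ctx W) (cl W.1 a1) • ev (S.ctx W) (cl W.1 x) +
          val (S.ctx W) (cl W.1 a2) • ev (S.ctx W) (cl W.1 y) +
          val (S.ctx W) (cl W.1 a3) • ev (S.ctx W) (cl W.1 z)) (val (S.ctx W) (cl W.1 r)))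
      (fun ε hε => ?_) W ⟨hx, hy, hz, h⟩
    filter_upwards [D.dens x hε, D.dens y hε, D.dens z hε] with W e1 e2 e3 ⟨hx, hy, hz, h⟩
    obtain ⟨d1, e1⟩ := e1 hx
    obtain ⟨d2, e2⟩ := e2 hy
    obtain ⟨d3, e3⟩ := e3 hz
    generalize val (S.ctx W) (cl W.1 a1) = a1 at *
    generalize val (S.ctx W) (cl W.1 a2) = a2 at *
    generalize val (S.ctx W) (cl W.1 a3) = a3 at *
    have e4 := h.sub (((e1.smul a1).add (e2.smul a2)).add (e3.smul a3))
    have e4' : ∀ p1 p2 p3 q1 q2 q3 : Mod W.1 → S.KK W, a1 • p1 + a2 • p2 + a3 • p3 -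
        (a1 • (p1 - q1) + a2 • (p2 - q2) + a3 • (p3 - q3)) = a1 • q1 + a2 • q2 + a3 • q3 := by
      intros
      module
    have e6' : ∀ p1 p2 p3 q1 q2 q3 : Mod W.1 → S.KK W, a1 • q1 + a2 • q2 + a3 • q3 +
        (a1 • (p1 - q1) + a2 • (p2 - q2) + a3 • (p3 - q3)) = a1 • p1 + a2 • p2 + a3 • p3 := by
      intros
      module
    rw [e4'] at e4
    have e5 := lc_bd (hw3 · W) d1 d2 d3 a1 a2 a3 e4
    have e6 := e5.add ((((h1 x d1 ε W e1).smul a1).add ((h1 y d2 ε W e2).smul a2)).add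
      ((h1 z d3 ε W e3).smul a3))
    rw [e6'] at e6
    exact (e6 _).trans (le_of_eq (by ring))
  have h3 : ∀ n (W : Pt S.q), Mem W.1 (cl W.1 n) (cl W.1 D.c1) →
      (ev (S.ctx W) (cl W.1 n), ev (S.ctx W) (cl W.1 (T n))) ∈ D.GF W := by
    intro n W hn
    obtain ⟨u, hu⟩ := maxp fun (W : Pt S.q) u => (ev (S.ctx W) (cl W.1 n), ev (S.ctx W) u) ∈ D.GF W
    replace hu := fun W (hn : Mem W.1 (cl W.1 n) (cl W.1 D.c1)) => hu W (by
      obtain ⟨t, ht, -⟩ := (D.hf W).1.2 _ hn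
      obtain ⟨u, h3, h4⟩ := coset ht
      exact ⟨u, mem_GF.2 ⟨_, t, u, ht, (h4 u).2 ⟨h3, 0, by rw [sub_self]; exact (D.GJ W).zero_mem⟩,
        rfl, rfl⟩⟩)
    obtain ⟨p, hp⟩ := GJ_closed (D := D)
      (fun W => ev (S.ctx W) (cl W.1 u) - ev (S.ctx W) (cl W.1 (T n)))
      (fun W => Mem W.1 (cl W.1 n) (cl W.1 D.c1)) (fun ε hε => of_gen _ (by
        have hδ : 0 < ε / (D.C + 1 + 2 * c) := by positivity
        filter_upwards [D.dens n hδ] with W e1 hn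
        obtain ⟨d, e1⟩ := e1 hn
        obtain ⟨v, e2, e3⟩ := GF_bd ((D.GC W).sub_mem ⟨_, hn, rfl⟩ ((D.GC W).sum_mem fun γ _ =>
          (D.GC W).smul_mem _ (D.dl_mem γ W))) e1 (Rat.cast_pos.2 hδ)
        have e4 : (ev (S.ctx W) (cl W.1 n), ev (S.ctx W) v + lc w d W) ∈ D.GF W := by
          simpa [lc] using (D.GF W).add_mem e2 (h0 d W)
        obtain ⟨p, e5⟩ := GF_diff (hu W hn) e4
        obtain ⟨z, j, e6, -, e7⟩ := D.mem_GJ.1 e5
        refine ⟨z, j, D.mem_GJ.2 ⟨z, j, e6, rfl, rfl⟩, ?_⟩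
        have e8 : ev (S.ctx W) (cl W.1 u) - ev (S.ctx W) (cl W.1 (T n)) - ev (S.ctx W) j =
            ev (S.ctx W) v - (ev (S.ctx W) (cl W.1 (T n)) - lc w d W) := by
          rw [e7]
          abel
        rw [e8]
        refine (e3.sub (h1 n d _ W e1)).mono (le_of_eq ?_)
        push_cast
        field_simp)) W hn
    simpa using GF_sub (hu W hn) hp
  have h4 : ∀ n (W : Pt S.q) t, App (Mem W.1) (cl W.1 D.f) (cl W.1 n) t →
      Mem W.1 (cl W.1 (T n)) t := fun n W t ht =>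
    GF_mem (h3 n W ((D.hf W).1.app_mem ht).1) (hT n W).1 ht
  obtain ⟨L, hL⟩ := exists_graph (q := S.q) D.c1 D.lG T
    (fun W n m hn e => fun_ext (h := S.ctx W) (hT n W).1 (hT m W).1 (by
      have := (h2 W n m m 1 (-1) 0 0 hn (e ▸ hn) (e ▸ hn) (by simpa [e] using Bd.zero le_rfl))
      rw [mul_zero] at this
      simpa [add_neg_eq_zero] using this.eq_zero))
    fun W n hn => by
      obtain ⟨t, ht, -⟩ := (D.hf W).1.2 _ hn
      exact coset_mem ht (h4 n W t ht)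
  have h5 : ∀ (W : Pt S.q) x u, App (Mem W.1) (cl W.1 L) x u → ∃ n, x = cl W.1 n ∧
      u = cl W.1 (T n) ∧ Mem W.1 (cl W.1 n) (cl W.1 D.c1) := by
    intro W x u h
    obtain ⟨n, rfl⟩ := cl_surj W.1 x
    have hn := ((hL W).1.app_mem h).1
    exact ⟨n, rfl, (hL W).1.app_unique h ((hL W).2 n hn), hn⟩
  refine ⟨L, fun W => ⟨⟨(hL W).1, ?_, (2 * c : S.KK W).1, (2 * c : S.KK W).2, ?_⟩, ?_⟩⟩
  · intro a x y z x' y' z' ha hx hy hz h
    obtain ⟨x, rfl, rfl, hx'⟩ := h5 W _ _ hx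
    obtain ⟨y, rfl, rfl, hy'⟩ := h5 W _ _ hy
    obtain ⟨z, rfl, rfl, hz'⟩ := h5 W _ _ hz
    have e1 := (comb_iff (h := S.ctx W) (a := ⟨a, ha⟩) (D.fun_1 hx') (D.fun_1 hy')
      (D.fun_1 hz')).1 h
    refine (comb_iff (h := S.ctx W) (a := ⟨a, ha⟩) (hT x W).1 (hT y W).1 (hT z W).1).2 ?_
    have := h2 W x y z ⟨a, ha⟩ 1 (-1) 0 hx' hy' hz' (by
      rw [one_smul, ← e1, neg_one_smul, add_neg_cancel]
      exact Bd.zero le_rfl)
    rw [mul_zero] at this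
    simpa [add_neg_eq_zero, eq_comm] using this.eq_zero
  · intro x x' r m hx hr hm
    obtain ⟨x, rfl, rfl, hx'⟩ := h5 W _ _ hx
    obtain ⟨r, rfl⟩ : ∃ r' : S.KK W, r'.1 = r := ⟨⟨r, (op_mem (S.reals W).2.1 hm).2.1⟩, rfl⟩
    rw [K.mul_iff.1 hm]
    have e1 : 0 ≤ r := (abs_nonneg _).trans ((normLe_iff' (D.fun_1 hx')).1 hr _
      (D.X.mem W (Classical.arbitrary ι)))
    have e2 := bd_of (D.fun_1 hx') hr
    rw [abs_of_nonneg e1] at e2
    exact normLe_of (hT x W).1 (by simpa using h2 W x x x 1 0 0 r hx' hx' hx' (by simpa using e2))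
  · intro x u t hx ht
    obtain ⟨x, rfl, rfl, -⟩ := h5 W _ _ hx
    exact h4 x W t ht

end Data

set_option synthInstance.maxSize 4096

section
variable {q : B} (N : RF (Name B)) (a b c d : ∀ W : Pt q, Mod W.1) [RepM a] [RepM b] [RepM c]
  [RepM d]

instance : Cl fun W => IsProd (Mem W.1) (a W) (b W) (c W) := by unfold IsProd; infer_instance
instance : Cl fun W => IsCommOp (Mem W.1) (a W) (b W) (c W) := by unfold IsCommOp; infer_instance
instance : Cl fun W : Pt q => IsReals (Mem W.1) (clF W.1 N) := by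
  unfold IsReals Ne; infer_instance
instance : Cl fun W => IsLinf (Mem W.1) (clF W.1 N) (a W) (b W) := by
  unfold IsLinf; infer_instance
instance : Cl fun W => IsC0 (Mem W.1) (clF W.1 N) (a W) (b W) (c W) := by
  unfold IsC0; infer_instance
instance : Cl fun W => IsLin (Mem W.1) (clF W.1 N) (a W) := by unfold IsLin; infer_instance
instance : Cl fun W => IsOperator (Mem W.1) (clF W.1 N) (a W) (b W) (c W) := by
  unfold IsOperator; infer_instance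
instance : Cl fun W => IsQuotEmb (Mem W.1) (clF W.1 N) (a W) (b W) (c W) (d W) := by
  unfold IsQuotEmb; infer_instance
instance : Cl fun W => IsQuot (Mem W.1) (clF W.1 N) (a W) (b W) (c W) := by
  unfold IsQuot; infer_instance
instance : Cl fun W => IsQuotOperator (Mem W.1) (clF W.1 N) (a W) (b W) (c W) (d W) := by
  unfold IsQuotOperator; infer_instance
end

theorem lifting (hB : LinkedMA B) (U : Ult B) (F : RF (Mod U)) (hF : IsReals (Mem U) F)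
    (c0 lw c1 G lG J Q f : Mod U)
    (h0 : IsC0 (Mem U) F (cl U (ordN Ordinal.omega0)) c0 (cl U (ordN Ordinal.omega0)))
    (hw : IsLinf (Mem U) F lw (cl U (ordN Ordinal.omega0)))
    (h1 : IsC0 (Mem U) F (cl U (ordN Ordinal.omega0)) c1 (cl U (ordN (Order.succ ℵ₀).ord)))
    (hG : IsLinf (Mem U) F lG G) (hJ : IsQuotEmb (Mem U) F J c0 lw lG)
    (hQ : IsQuot (Mem U) F Q lG J) (hf : IsQuotOperator (Mem U) F f c1 Q lG) :
    ∃ T, IsOperator (Mem U) F T c1 lG ∧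
      ∀ x u t, App (Mem U) T x u → App (Mem U) f x t → Mem U u t := by
  obtain ⟨R, add, mul, le, zero, one⟩ := F
  obtain ⟨R, rfl⟩ := cl_surj U R
  obtain ⟨add, rfl⟩ := cl_surj U add
  obtain ⟨mul, rfl⟩ := cl_surj U mul
  obtain ⟨le, rfl⟩ := cl_surj U le
  obtain ⟨zero, rfl⟩ := cl_surj U zero
  obtain ⟨one, rfl⟩ := cl_surj U one
  obtain ⟨c0, rfl⟩ := cl_surj U c0
  obtain ⟨lw, rfl⟩ := cl_surj U lw
  obtain ⟨c1, rfl⟩ := cl_surj U c1
  obtain ⟨G, rfl⟩ := cl_surj U G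
  obtain ⟨lG, rfl⟩ := cl_surj U lG
  obtain ⟨J, rfl⟩ := cl_surj U J
  obtain ⟨Q, rfl⟩ := cl_surj U Q
  obtain ⟨f, rfl⟩ := cl_surj U f
  obtain ⟨C, hC1, hC2⟩ := hf.2.2
  obtain ⟨C, rfl⟩ := cl_surj U C
  let N : RF (Name B) := ⟨R, add, mul, le, zero, one⟩
  let H : Ult B → Prop := fun U => IsReals (Mem U) (clF U N) ∧
    IsC0 (Mem U) (clF U N) (cl U (ordN Ordinal.omega0)) (cl U c0) (cl U (ordN Ordinal.omega0)) ∧
    IsLinf (Mem U) (clF U N) (cl U lw) (cl U (ordN Ordinal.omega0)) ∧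
    IsC0 (Mem U) (clF U N) (cl U (ordN Ordinal.omega0)) (cl U c1)
      (cl U (ordN (Order.succ ℵ₀).ord)) ∧
    IsLinf (Mem U) (clF U N) (cl U lG) (cl U G) ∧
    IsQuotEmb (Mem U) (clF U N) (cl U J) (cl U c0) (cl U lw) (cl U lG) ∧
    IsQuot (Mem U) (clF U N) (cl U Q) (cl U lG) (cl U J) ∧
    IsQuotOperator (Mem U) (clF U N) (cl U f) (cl U c1) (cl U Q) (cl U lG) ∧
    Mem U (cl U C) (clF U N).R ∧ ∀ x q r m e s, App (Mem U) (cl U f) x q →
      NormLe (Mem U) (clF U N) x r → Op (Mem U) (clF U N).mul (cl U C) r m →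
      Pos (Mem U) (clF U N) e → Op (Mem U) (clF U N).add m e s →
      ∃ u, Mem U u q ∧ NormLe (Mem U) (clF U N) u s
  have : Cl fun W : Pt (⊤ : B) => H W.1 := by unfold H; infer_instance
  obtain ⟨q, hq⟩ := this.ex_val
  replace hq : ∀ U, H U ↔ U.In q := fun U => hq ⟨U, U.top⟩
  let S : Base B := ⟨q, N, fun W => ((hq _).2 W.2).1⟩
  refine of_gen (q := q) (fun W => ∃ T, IsOperator (Mem W.1) (clF W.1 N) T (cl W.1 c1) (cl W.1 lG) ∧
    ∀ x u t, App (Mem W.1) T x u → App (Mem W.1) (cl W.1 f) x t → Mem W.1 u t) ?_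
    ⟨U, (hq U).1 ⟨hF, h0, hw, h1, hG, hJ, hQ, hf, hC1, hC2⟩⟩
  filter_upwards [gen_arch (S := S) fun W => |val (S.ctx W) (cl W.1 C)|] with W ⟨k, hk⟩
  obtain ⟨b, hb⟩ := (inferInstance : Cl fun W : Pt S.q => |val (S.ctx W) (cl W.1 C)| ≤ k).ex_val
  have hH : ∀ V : Pt (q ⊓ b), H V.1 := fun V => (hq _).2 (V.1.inf_iff.1 V.2).1
  let S' : Base B := ⟨q ⊓ b, N, fun V => (hH V).1⟩
  have : Nonempty (Order.succ ℵ₀).ord.ToType := by
    rw [← mk_ne_zero_iff, mk_ord_toType]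
    exact succ_ne_zero _
  obtain ⟨T, hT⟩ := Data.exists_lift (S := S') ⟨ixO _ (Order.succ ℵ₀).ord, c0, lw, c1, G, lG, J, Q,
    f, k, fun V => (hH V).2.1, fun V => (hH V).2.2.1, fun V => (hH V).2.2.2.1,
    fun V => (hH V).2.2.2.2.1, fun V => (hH V).2.2.2.2.2.1, fun V => (hH V).2.2.2.2.2.2.1,
    fun V => (hH V).2.2.2.2.2.2.2.1, fun V x t r e ht hr he => by
      obtain ⟨-, -, -, e1, e2, -, e3, e4, e5, e6⟩ := hH V
      have e7 : |val (S'.ctx V) (cl V.1 C)| ≤ k :=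
        (hb ⟨V.1, (V.1.inf_iff.1 V.2).1⟩).2 (V.1.inf_iff.1 V.2).2
      obtain ⟨u, e8, e9⟩ := e6 x t r.1 _ e.1 _ ht
        (normLe_of ((e1 x).1 (e4.1.app_mem ht).1).1 hr)
        (val_of_mem (h := S'.ctx V) e5 ▸ K.mul_spec (val (S'.ctx V) (cl V.1 C)) r) (pos_iff.2 he)
        (K.add_spec _ e)
      obtain ⟨_, -, e10⟩ := (e3 t).1 (e4.1.app_mem ht).2
      refine ⟨u, e8, (bd_of ((e2 u).1 ((e10 u).1 e8).1).1 e9).mono ((abs_add_le _ _).trans ?_)⟩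
      rw [abs_mul, abs_of_nonneg hr.nonneg, abs_of_pos he]
      exact add_le_add_left (mul_le_mul_of_nonneg_right e7 hr.nonneg) _⟩ hB
    (by rw [mk_ord_toType, succ_aleph0])
  exact ⟨_, hT ⟨W.1, W.1.inf W.2 ((hb W).1 hk)⟩⟩

theorem main : ∃ (M : Type 1) (E : M → M → Prop), IsZFC E ∧ ∃ w w1, IsOmega E w ∧
    IsSuccCard E w1 w ∧ ∀ F, IsReals E F → ∀ c0 lw c1 G lG J Q f, IsC0 E F w c0 w →
      IsLinf E F lw w → IsC0 E F w c1 w1 → IsLinf E F lG G → IsQuotEmb E F J c0 lw lG →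
      IsQuot E F Q lG J → IsQuotOperator E F f c1 Q lG →
      ∃ T, IsOperator E F T c1 lG ∧ ∀ x u q, App E T x u → App E f x q → E u q := by
  obtain ⟨B, _, h1, h2, h3⟩ := exists_linkedMA
  obtain ⟨U, -⟩ := Ult.exists_of_ne_bot h1
  refine ⟨Mod U, Mem U, isZFC_mod U, _, _, isOmega_omega U, ?_, lifting h3 U⟩
  simpa only [ord_aleph0] using isSuccCard_ordN h2 le_rfl U

end Pool.Agent.Lib.MP_c1e359_an
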