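import Pool.Agent.Lib.MP_c1e359_an.Gen

/-!
Real valued terms given by names.
-/

namespace Pool.Agent.Lib.MP_c1e359_an

open Pool.Agent.Lib.MP_5d9fac_lc Filter

variable {B : Type} [CompleteBooleanAlgebra B]

/-- the classes of six names -/
abbrev clF (U : Ult B) (N : RF (Name B)) : RF (Mod U) :=
  ⟨cl U N.R, cl U N.add, cl U N.mul, cl U N.le, cl U N.zero, cl U N.one⟩

/-- a condition forcing six names to be the reals -/
structure Base (B : Type) [CompleteBooleanAlgebra B] where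
  q : B
  N : RF (Name B)
  reals : ∀ W : Pt q, IsReals (Mem W.1) (clF W.1 N)

theorem Base.ctx (S : Base B) (W : Pt S.q) : Ctx (Mem W.1) (clF W.1 S.N) :=
  ⟨mod_ext _, mod_pair _, S.reals W⟩

/-- the reals of a model -/
abbrev Base.KK (S : Base B) (W : Pt S.q) := K (S.ctx W)

section
variable {q : B} (N : RF (Name B)) (a b c d : ∀ W : Pt q, Mod W.1) [RepM a] [RepM b] [RepM c]
  [RepM d]

instance : RepM fun W : Pt q => (clF W.1 N).R := ⟨N.R, fun _ => rfl⟩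
instance : RepM fun W : Pt q => (clF W.1 N).add := ⟨N.add, fun _ => rfl⟩
instance : RepM fun W : Pt q => (clF W.1 N).mul := ⟨N.mul, fun _ => rfl⟩
instance : RepM fun W : Pt q => (clF W.1 N).le := ⟨N.le, fun _ => rfl⟩
instance : RepM fun W : Pt q => (clF W.1 N).zero := ⟨N.zero, fun _ => rfl⟩
instance : RepM fun W : Pt q => (clF W.1 N).one := ⟨N.one, fun _ => rfl⟩

instance : Cl fun W => Pos (Mem W.1) (clF W.1 N) (a W) := by unfold Pos; infer_instance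
instance : Cl fun W => Dist (Mem W.1) (clF W.1 N) (a W) (b W) (c W) := by
  unfold Dist; infer_instance
instance : Cl fun W => NormLe (Mem W.1) (clF W.1 N) (a W) (b W) := by
  unfold NormLe; infer_instance
instance : Cl fun W => Comb (Mem W.1) (clF W.1 N) (a W) (b W) (c W) (d W) := by
  unfold Comb; infer_instance
instance : Cl fun W => OffFin (Mem W.1) (clF W.1 N) (a W) (b W) (c W) (d W) := by
  unfold OffFin; infer_instance
end

variable {S : Base B}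

/-- real valued terms given by a name -/
class Rep (τ : ∀ W : Pt S.q, S.KK W) : Prop where
  ex_name : ∃ n : Name B, ∀ W, (τ W).1 = cl W.1 n

instance (τ : ∀ W : Pt S.q, S.KK W) [h : Rep τ] : RepM fun W : Pt S.q => (τ W).1 := ⟨h.ex_name⟩

section
variable (τ σ : ∀ W : Pt S.q, S.KK W) [Rep τ] [Rep σ]

instance Cl.le : Cl fun W => τ W ≤ σ W :=
  Cl.of_iff (fun W => App (Mem W.1) (clF W.1 S.N).le (τ W).1 (σ W).1) fun _ => K.le_iff

instance Cl.lt : Cl fun W => τ W < σ W :=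
  Cl.of_iff (fun W => ¬ σ W ≤ τ W) fun _ => not_le.symm

instance Cl.eqK : Cl fun W => τ W = σ W :=
  Cl.of_iff (fun W => (τ W).1 = (σ W).1) fun _ => ⟨fun h => by rw [h], K.ext⟩

end

namespace Rep

theorem of_rel {τ : ∀ W : Pt S.q, S.KK W} (Q : ∀ W : Pt S.q, Mod W.1 → Prop)
    [∀ n : Name B, Cl fun W => Q W (cl W.1 n)] (h : ∀ W x, Q W x ↔ x = (τ W).1) : Rep τ := by
  obtain ⟨m, hm⟩ := maxp Q
  exact ⟨m, fun W => ((h W _).1 (hm W ⟨_, (h W _).2 rfl⟩)).symm⟩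

theorem of_eq {τ : ∀ W : Pt S.q, S.KK W} (σ : ∀ W : Pt S.q, S.KK W) [h : Rep σ]
    (e : ∀ W, τ W = σ W) : Rep τ := by
  obtain rfl : τ = σ := funext e
  exact h

instance val (μ : ∀ W : Pt S.q, Mod W.1) [RepM μ] : Rep fun W => val (S.ctx W) (μ W) := by
  refine of_rel (fun W x => (Mem W.1 (μ W) (clF W.1 S.N).R ∧ x = μ W) ∨
    (¬ Mem W.1 (μ W) (clF W.1 S.N).R ∧ x = (clF W.1 S.N).zero)) fun W x => ?_
  by_cases h : Mem W.1 (μ W) (clF W.1 S.N).R
  · simp [h, val_of_mem (h := S.ctx W) h]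
  · have : MP_c1e359_an.val (S.ctx W) (μ W) = 0 :=
      (the_iff.2 (Or.inr ⟨fun ⟨s, hs, _⟩ => h (hs ▸ s.2), rfl⟩)).symm
    simp [h, this, K.zero_val]

end Rep

instance Cl.exK {P : ∀ W : Pt S.q, S.KK W → Prop}
    [∀ n : Name B, Cl fun W => P W (val (S.ctx W) (cl W.1 n))] : Cl fun W => ∃ s, P W s :=
  Cl.of_iff (fun W => ∃ x, P W (val (S.ctx W) x)) fun W =>
    ⟨fun ⟨s, hs⟩ => ⟨s.1, by rwa [val_coe]⟩, fun ⟨_, h⟩ => ⟨_, h⟩⟩

instance Cl.allK {P : ∀ W : Pt S.q, S.KK W → Prop}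
    [∀ n : Name B, Cl fun W => P W (val (S.ctx W) (cl W.1 n))] : Cl fun W => ∀ s, P W s :=
  Cl.of_iff (fun W => ¬ ∃ s, ¬ P W s) fun W => by simp

namespace Rep

instance zero : Rep fun W : Pt S.q => (0 : S.KK W) := ⟨S.N.zero, fun _ => rfl⟩
instance one : Rep fun W : Pt S.q => (1 : S.KK W) := ⟨S.N.one, fun _ => rfl⟩

instance the (Q : ∀ W : Pt S.q, S.KK W → Prop)
    [∀ n : Name B, Cl fun W => Q W (MP_c1e359_an.val (S.ctx W) (cl W.1 n))] :
    Rep fun W => the (Q W) := by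
  refine of_rel (fun W x => Mem W.1 x (clF W.1 S.N).R ∧
    ((Q W (MP_c1e359_an.val (S.ctx W) x) ∧ ∀ t, Q W t → t = MP_c1e359_an.val (S.ctx W) x) ∨
    ((¬ ∃ s, Q W s ∧ ∀ t, Q W t → t = s) ∧ MP_c1e359_an.val (S.ctx W) x = 0))) fun W x => ?_
  rw [← the_iff]
  refine ⟨fun h => by rw [← h.2, val_of_mem h.1], ?_⟩
  rintro rfl
  exact ⟨(MP_c1e359_an.the (Q W)).2, val_coe _⟩

instance ev (μ ν : ∀ W : Pt S.q, Mod W.1) [RepM μ] [RepM ν] :
    Rep fun W => ev (S.ctx W) (μ W) (ν W) := by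
  unfold MP_c1e359_an.ev
  infer_instance

variable (τ σ : ∀ W : Pt S.q, S.KK W) [Rep τ] [Rep σ]

instance add : Rep fun W => τ W + σ W :=
  of_rel (fun W x => Op (Mem W.1) (clF W.1 S.N).add (τ W).1 (σ W).1 x) fun _ _ => K.add_iff

instance mul : Rep fun W => τ W * σ W :=
  of_rel (fun W x => Op (Mem W.1) (clF W.1 S.N).mul (τ W).1 (σ W).1 x) fun _ _ => K.mul_iff

instance neg : Rep fun W => -τ W :=
  of_eq (fun W => MP_c1e359_an.the fun s => s + τ W = 0) fun _ =>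
    (the_eq (by simp) fun _ ht => eq_neg_of_add_eq_zero_left ht).symm

instance sub : Rep fun W => τ W - σ W := of_eq (fun W => τ W + -σ W) fun _ => sub_eq_add_neg _ _

instance inv : Rep fun W => (τ W)⁻¹ := by
  refine of_eq (fun W => MP_c1e359_an.the fun s => τ W * s = 1) fun W => ?_
  by_cases h : τ W = 0
  · exact the_iff.2 (Or.inr (by simp [h]))
  · exact (the_eq (Q := fun s => τ W * s = 1) (mul_inv_cancel₀ h)
      fun _ ht => eq_inv_of_mul_eq_one_right ht).symm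

instance div : Rep fun W => τ W / σ W := of_eq (fun W => τ W * (σ W)⁻¹) fun _ => div_eq_mul_inv _ _

instance ite (P : Pt S.q → Prop) [Cl P] [d : ∀ W, Decidable (P W)] :
    Rep fun W => if P W then τ W else σ W := by
  refine of_eq (fun W => MP_c1e359_an.the fun s => (P W ∧ s = τ W) ∨ (¬ P W ∧ s = σ W))
    fun W => ?_
  by_cases h : P W
  · exact (the_eq (by simp [h]) (by simp [h])).symm
  · exact (the_eq (by simp [h]) (by simp [h])).symm

instance abs : Rep fun W => |τ W| := by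
  classical
  refine of_eq (fun W => if 0 ≤ τ W then τ W else -τ W) fun W => ?_
  split_ifs with h
  · exact abs_of_nonneg h
  · exact abs_of_neg (not_le.1 h)

instance nat (k : ℕ) : Rep fun W : Pt S.q => (k : S.KK W) := by
  induction k with
  | zero => exact of_eq (fun _ => 0) fun _ => Nat.cast_zero
  | succ k _ => exact of_eq (fun _ => (k : S.KK _) + 1) fun _ => Nat.cast_succ k

instance ofNat (k : ℕ) [k.AtLeastTwo] : Rep fun W : Pt S.q => (OfNat.ofNat k : S.KK W) :=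
  of_eq (fun _ => ((OfNat.ofNat k : ℕ) : S.KK _)) fun _ => Nat.cast_ofNat.symm

instance int (k : ℤ) : Rep fun W : Pt S.q => (k : S.KK W) := by
  obtain ⟨n, rfl | rfl⟩ := k.eq_nat_or_neg
  · exact of_eq (fun _ => (n : S.KK _)) fun _ => Int.cast_natCast n
  · exact of_eq (fun _ => -(n : S.KK _)) fun _ => by simp

instance rat (t : ℚ) : Rep fun W : Pt S.q => (t : S.KK W) :=
  of_eq (fun _ => (t.num : S.KK _) / (t.den : S.KK _)) fun _ => Rat.cast_def t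

instance sum {ι : Type*} (s : Finset ι) (τ : ι → ∀ W : Pt S.q, S.KK W) [∀ i, Rep (τ i)] :
    Rep fun W => ∑ i ∈ s, τ i W := by
  classical
  induction s using Finset.induction_on with
  | empty => exact of_eq (fun _ => 0) fun _ => Finset.sum_empty
  | insert a s ha _ => exact of_eq (fun W => τ a W + ∑ i ∈ s, τ i W) fun _ => Finset.sum_insert ha

end Rep

/-- vector valued terms -/
class RepV (π : ∀ W : Pt S.q, Mod W.1 → S.KK W) : Prop where
  rep : ∀ n : Name B, Rep fun W => π W (cl W.1 n)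

instance (priority := low) Rep.app (π : ∀ W : Pt S.q, Mod W.1 → S.KK W) [h : RepV π]
    (μ : ∀ W : Pt S.q, Mod W.1) [h' : RepM μ] : Rep fun W => π W (μ W) := by
  obtain ⟨n, hn⟩ := h'.ex_name
  have := h.rep n
  exact Rep.of_eq (fun W => π W (cl W.1 n)) fun W => by rw [hn]

namespace RepV

instance ev (μ : ∀ W : Pt S.q, Mod W.1) [RepM μ] : RepV fun W => ev (S.ctx W) (μ W) :=
  ⟨fun _ => inferInstance⟩

variable (π ρ : ∀ W : Pt S.q, Mod W.1 → S.KK W) [RepV π] [RepV ρ]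

instance zero : RepV fun W : Pt S.q => (0 : Mod W.1 → S.KK W) :=
  ⟨fun _ => Rep.of_eq (fun _ => 0) fun _ => rfl⟩

instance add : RepV fun W => π W + ρ W :=
  ⟨fun n => Rep.of_eq (fun W => π W (cl W.1 n) + ρ W (cl W.1 n)) fun _ => rfl⟩

instance sub : RepV fun W => π W - ρ W :=
  ⟨fun n => Rep.of_eq (fun W => π W (cl W.1 n) - ρ W (cl W.1 n)) fun _ => rfl⟩

instance smul (τ : ∀ W : Pt S.q, S.KK W) [Rep τ] : RepV fun W => τ W • π W :=
  ⟨fun n => Rep.of_eq (fun W => τ W * π W (cl W.1 n)) fun _ => rfl⟩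

instance sum {ι : Type*} (s : Finset ι) (π : ι → ∀ W : Pt S.q, Mod W.1 → S.KK W)
    [∀ i, RepV (π i)] : RepV fun W => ∑ i ∈ s, π i W :=
  ⟨fun n => Rep.of_eq (fun W => ∑ i ∈ s, π i W (cl W.1 n)) fun _ => Finset.sum_apply _ _ _⟩

instance clEq : Cl fun W => π W = ρ W :=
  Cl.of_iff (fun W => ∀ i, π W i = ρ W i) fun _ => funext_iff

instance clBd (τ : ∀ W : Pt S.q, S.KK W) [Rep τ] : Cl fun W => Bd (π W) (τ W) := by
  unfold Bd; infer_instance

end RepV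

theorem exists_fun (a : Name B) (π : ∀ W : Pt S.q, Mod W.1 → S.KK W) [h : RepV π] :
    ∃ y : Name B, ∀ W : Pt S.q, IsFun (Mem W.1) (cl W.1 y) (cl W.1 a) (clF W.1 S.N).R ∧
      ∀ i, Mem W.1 i (cl W.1 a) → ev (S.ctx W) (cl W.1 y) i = π W i := by
  choose φ hφ using fun n => (h.rep n).ex_name
  obtain ⟨T, hT⟩ := exists_graph (q := S.q) a S.N.R φ
    (fun W n m _ e => by rw [← hφ, ← hφ, e]) (fun W n _ => by rw [← hφ]; exact (π W _).2)
  refine ⟨T, fun W => ⟨(hT W).1, fun i hi => ?_⟩⟩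
  obtain ⟨n, rfl⟩ := cl_surj W.1 i
  exact K.ext ((ev_of_app (hT W).1 ((hT W).2 n hi)).symm.trans (hφ n W).symm)

/-- Balls in a space of bounded functions that meet pairwise have a common point. -/
theorem hyper (a : Name B) {I : Type} (π : I → ∀ W : Pt S.q, Mod W.1 → S.KK W) [∀ i, RepV (π i)]
    (r : I → ∀ W : Pt S.q, S.KK W) [∀ i, Rep (r i)] (wt : I → Pt S.q → Prop) [∀ i, Cl (wt i)]
    (h : ∀ i j W, wt i W → wt j W → Bd (π i W - π j W) (r i W + r j W)) :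
    ∃ y : Name B, ∀ W : Pt S.q, IsFun (Mem W.1) (cl W.1 y) (cl W.1 a) (clF W.1 S.N).R ∧
      ∀ i, wt i W → ∀ x, Mem W.1 x (cl W.1 a) →
        |ev (S.ctx W) (cl W.1 y) x - π i W x| ≤ r i W := by
  have h0 : ∀ i, RepV fun W x => π i W x - r i W := fun i => ⟨fun _ => inferInstance⟩
  choose l hl using fun i => exists_fun a fun W x => π i W x - r i W
  let X : Name B := Name.mk I l fun i => tv (wt i)
  let τ : ∀ W : Pt S.q, Mod W.1 → S.KK W := fun W x => the fun s =>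
    (∀ z, Mem W.1 z (cl W.1 X) → ev (S.ctx W) z x ≤ s) ∧
      ∀ t, (∀ z, Mem W.1 z (cl W.1 X) → ev (S.ctx W) z x ≤ t) → s ≤ t
  have h1 : RepV τ := ⟨fun _ => by unfold τ; infer_instance⟩
  obtain ⟨y, hy⟩ := exists_fun a τ
  refine ⟨y, fun W => ⟨(hy W).1, fun i hi x hx => ?_⟩⟩
  rw [(hy W).2 x hx]
  obtain ⟨n, rfl⟩ := cl_surj W.1 x
  obtain ⟨T, hT⟩ := exists_sep (q := S.q) (fun W s => ∃ z, Mem W.1 z (cl W.1 X) ∧
    s = (ev (S.ctx W) z (cl W.1 n)).1) S.N.R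
  have h2 : Mem W.1 (cl W.1 (l i)) (cl W.1 X) := mem_mk (A := l) i ((in_tv _ W).2 hi)
  have h3 : ∀ z, Mem W.1 z (cl W.1 X) →
      ev (S.ctx W) z (cl W.1 n) ≤ π i W (cl W.1 n) + r i W := by
    intro z hz
    refine mk_ind (fun W z => wt i W → Mem W.1 (cl W.1 n) (cl W.1 a) →
      ev (S.ctx W) z (cl W.1 n) ≤ π i W (cl W.1 n) + r i W) (fun j V hj hi hn => ?_) W z hz hi hx
    rw [(hl j V).2 _ hn]
    have := (abs_le.1 (h j i V ((in_tv _ V).1 hj) hi (cl V.1 n))).2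
    simp only [Pi.sub_apply] at this
    linarith
  have h4 : ∀ s : S.KK W, Mem W.1 s.1 (cl W.1 T) ↔
      ∃ z, Mem W.1 z (cl W.1 X) ∧ s = ev (S.ctx W) z (cl W.1 n) := fun s => by
    rw [hT]
    exact ⟨fun ⟨_, z, h5, h6⟩ => ⟨z, h5, K.ext h6⟩, fun ⟨z, h5, h6⟩ => ⟨s.2, z, h5, by rw [h6]⟩⟩
  obtain ⟨s, hs⟩ := K.complete (h := S.ctx W) (S := cl W.1 T) (fun x hx => ((hT W x).1 hx).1)
    _ (π i W (cl W.1 n) + r i W) ((h4 _).2 ⟨_, h2, rfl⟩) fun s hs => by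
      obtain ⟨z, h5, rfl⟩ := (h4 s).1 hs
      exact h3 z h5
  have h5 : ∀ z, Mem W.1 z (cl W.1 X) → ev (S.ctx W) z (cl W.1 n) ≤ s := fun z hz =>
    hs.1 ((h4 _).2 ⟨z, hz, rfl⟩)
  have h6 : ∀ t, (∀ z, Mem W.1 z (cl W.1 X) → ev (S.ctx W) z (cl W.1 n) ≤ t) → s ≤ t :=
    fun t ht => hs.2 fun s' hs' => by
      obtain ⟨z, h5, rfl⟩ := (h4 s').1 hs'
      exact ht z h5
  have h7 : τ W (cl W.1 n) = s := the_eq ⟨h5, h6⟩ fun t ht => le_antisymm (ht.2 s h5) (h6 t ht.1)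
  have h8 := h5 _ h2
  rw [(hl i W).2 _ hx] at h8
  have h9 := h6 _ h3
  rw [h7, abs_le]
  constructor <;> linarith

theorem gen_arch (τ : ∀ W : Pt S.q, S.KK W) [Rep τ] : ∀ᶠ W in gen S.q, ∃ k : ℕ, τ W ≤ k := by
  choose ν hν using fun k : ℕ => (Rep.nat (S := S) k).ex_name
  let X : Name B := Name.mk ℕ ν fun _ => ⊤
  have h0 : ∀ (W : Pt S.q) k, Mem W.1 ((k : ℕ) : S.KK W).1 (cl W.1 X) := fun W k => by
    rw [hν]
    exact mem_mk (A := ν) k W.1.top
  have h1 : ∀ W : Pt S.q, ∃ x, Mem W.1 x (cl W.1 X) ∧ τ W ≤ val (S.ctx W) x := by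
    intro W
    by_contra hc
    push Not at hc
    have h2 : ∀ x, Mem W.1 x (cl W.1 X) → Mem W.1 x (clF W.1 S.N).R ∧
        Mem W.1 (val (S.ctx W) x + 1).1 (cl W.1 X) := by
      refine mk_ind (fun W x => Mem W.1 x (clF W.1 S.N).R ∧
        Mem W.1 (val (S.ctx W) x + 1).1 (cl W.1 X)) (fun k V _ => ?_) W
      rw [← hν, val_coe, ← Nat.cast_succ]
      exact ⟨((k : ℕ) : S.KK V).2, h0 V _⟩
    obtain ⟨s, hs⟩ := K.complete (h := S.ctx W) (S := cl W.1 X) (fun x hx => (h2 x hx).1)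
      _ (τ W) (h0 W 0) fun s hs => by simpa [val_coe] using (hc _ hs).le
    have h3 : s ≤ s - 1 := hs.2 fun t ht => by
      have := hs.1 (h2 _ ht).2
      rw [val_coe] at this
      linarith
    linarith
  obtain ⟨m, hm⟩ := maxp fun (W : Pt S.q) x => Mem W.1 x (cl W.1 X) ∧ τ W ≤ val (S.ctx W) x
  filter_upwards [gen_mem m X] with W h2
  obtain ⟨h3, h4⟩ := hm W (h1 W)
  obtain ⟨k, hk⟩ : ∃ k : ℕ, cl W.1 m = cl W.1 (ν k) := (h2 h3).imp fun _ h => h.2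
  refine ⟨k, ?_⟩
  have : cl W.1 m = ((k : ℕ) : S.KK W).1 := hk.trans (hν k W).symm
  rwa [this, val_coe] at h4

theorem exists_int_near {L : Type*} [Field L] [LinearOrder L] [IsStrictOrderedRing L] (k : ℕ)
    (x : L) (hx : |x| ≤ k) : ∃ j : ℤ, |x - j| ≤ 1 := by
  induction k with
  | zero => exact ⟨0, by simpa using hx.trans (by simp)⟩
  | succ k ih =>
    by_cases h : |x| ≤ k
    · exact ih h
    · push_cast at hx
      rw [abs_le] at hx
      rcases lt_abs.1 (not_le.1 h) with h | h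
      · exact ⟨k, abs_le.2 ⟨by push_cast; linarith, by push_cast; linarith⟩⟩
      · exact ⟨-k, abs_le.2 ⟨by push_cast; linarith, by push_cast; linarith⟩⟩

theorem gen_rat (τ : ∀ W : Pt S.q, S.KK W) [Rep τ] {ε : ℚ} (hε : 0 < ε) :
    ∀ᶠ W in gen S.q, ∃ t : ℚ, |τ W - t| ≤ ε := by
  filter_upwards [gen_arch fun W => |τ W / ε|] with W ⟨k, hk⟩
  obtain ⟨j, hj⟩ := exists_int_near k _ hk
  refine ⟨j * ε, ?_⟩
  have h1 : (0 : S.KK W) < ε := by exact_mod_cast hε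
  have h2 : τ W - (j * ε : ℚ) = (τ W / ε - j) * ε := by
    push_cast
    field_simp
  rw [h2, abs_mul, abs_of_pos h1]
  exact mul_le_of_le_one_left h1.le hj

theorem le_of_small (τ σ κ : ∀ W : Pt S.q, S.KK W) [Rep τ] [Rep σ] [Rep κ] (P : Pt S.q → Prop)
    [Cl P] (h : ∀ ε : ℚ, 0 < ε → ∀ᶠ W in gen S.q, P W → τ W ≤ σ W + κ W * ε) (W : Pt S.q)
    (hW : P W) : τ W ≤ σ W := by
  have h' : ∀ ε : ℚ, 0 < ε → ∀ W, P W → τ W ≤ σ W + κ W * ε := fun ε hε =>
    of_gen _ (h ε hε)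
  refine of_gen (fun W => P W → τ W ≤ σ W) ?_ W hW
  filter_upwards [gen_arch fun W => κ W / (τ W - σ W)] with W ⟨k, hk⟩ hW
  by_contra hc
  have h1 : 0 < τ W - σ W := sub_pos.2 (not_le.1 hc)
  have h2 := h' (1 / (k + 1)) (by positivity) W hW
  rw [div_le_iff₀ h1] at hk
  push_cast at h2
  have h3 : (0 : S.KK W) < k + 1 := by positivity
  rw [← sub_le_iff_le_add', mul_one_div, le_div_iff₀ h3] at h2
  nlinarith

end Pool.Agent.Lib.MP_c1e359_an
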