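import Pool.Agent.Lib.MP_c1e359_an.Fin

/-!
The graphs of the embedding and of the operator as linear subspaces.
-/

namespace Pool.Agent.Lib.MP_c1e359_an

open Pool.Agent.Lib.MP_5d9fac_lc Filter

variable {B : Type} [CompleteBooleanAlgebra B]

/-- a subspace from closure under one combination -/
def subOf {L V : Type*} [Field L] [AddCommGroup V] [Module L V] (s : Set V) (h0 : s.Nonempty)
    (h : ∀ (a : L) x y, x ∈ s → y ∈ s → a • x + y ∈ s) : Submodule L V where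
  carrier := s
  add_mem' := fun hx hy => by simpa using h 1 _ _ hx hy
  zero_mem' := by
    obtain ⟨x, hx⟩ := h0
    simpa using h (-1) _ _ hx hx
  smul_mem' := fun a x hx => by simpa [sub_smul] using h (a - 1) _ _ hx hx

/-- names for the data of the lifting problem -/
structure Data (S : Base B) (ι : Type) where
  X : Ix S.q ι
  c0 : Name B
  lw : Name B
  c1 : Name B
  G : Name B
  lG : Name B
  J : Name B
  Q : Name B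
  f : Name B
  C : ℕ
  h0 : ∀ W : Pt S.q, IsC0 (Mem W.1) (clF W.1 S.N) (cl W.1 (ixN S.q).A) (cl W.1 c0)
    (cl W.1 (ixN S.q).A)
  hw : ∀ W : Pt S.q, IsLinf (Mem W.1) (clF W.1 S.N) (cl W.1 lw) (cl W.1 (ixN S.q).A)
  h1 : ∀ W : Pt S.q, IsC0 (Mem W.1) (clF W.1 S.N) (cl W.1 (ixN S.q).A) (cl W.1 c1) (cl W.1 X.A)
  hG : ∀ W : Pt S.q, IsLinf (Mem W.1) (clF W.1 S.N) (cl W.1 lG) (cl W.1 G)
  hJ : ∀ W : Pt S.q, IsQuotEmb (Mem W.1) (clF W.1 S.N) (cl W.1 J) (cl W.1 c0) (cl W.1 lw)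
    (cl W.1 lG)
  hQ : ∀ W : Pt S.q, IsQuot (Mem W.1) (clF W.1 S.N) (cl W.1 Q) (cl W.1 lG) (cl W.1 J)
  hf : ∀ W : Pt S.q, IsQuotOperator (Mem W.1) (clF W.1 S.N) (cl W.1 f) (cl W.1 c1) (cl W.1 Q)
    (cl W.1 lG)
  hC : ∀ (W : Pt S.q) x t (r e : S.KK W), App (Mem W.1) (cl W.1 f) x t → Bd (ev (S.ctx W) x) r →
    0 < e → ∃ u, Mem W.1 u t ∧ Bd (ev (S.ctx W) u) (C * r + e)

namespace Data

variable {S : Base B} {ι : Type} (D : Data S ι) {W : Pt S.q}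

theorem fun_w {x : Mod W.1} (h : Mem W.1 x (cl W.1 D.lw)) :
    IsFun (Mem W.1) x (cl W.1 (ixN S.q).A) (clF W.1 S.N).R := ((linf_iff (D.hw W)).1 h).1

theorem fun_G {x : Mod W.1} (h : Mem W.1 x (cl W.1 D.lG)) :
    IsFun (Mem W.1) x (cl W.1 D.G) (clF W.1 S.N).R := ((linf_iff (D.hG W)).1 h).1

theorem fun_0 {x : Mod W.1} (h : Mem W.1 x (cl W.1 D.c0)) :
    IsFun (Mem W.1) x (cl W.1 (ixN S.q).A) (clF W.1 S.N).R := ((c0_iff (D.h0 W)).1 h).1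

theorem fun_1 {x : Mod W.1} (h : Mem W.1 x (cl W.1 D.c1)) :
    IsFun (Mem W.1) x (cl W.1 D.X.A) (clF W.1 S.N).R := ((c0_iff (D.h1 W)).1 h).1

theorem zero_w (W : Pt S.q) : ∃ z, Mem W.1 z (cl W.1 D.lw) ∧ ev (S.ctx W) z = 0 := by
  obtain ⟨z, h1, h2⟩ := exists_zero (S := S) (cl W.1 (ixN S.q).A)
  exact ⟨z, (linf_iff (D.hw W)).2 ⟨h1, 0, h2 ▸ Bd.zero le_rfl⟩, h2⟩

/-- the graph of the embedding -/
noncomputable def GJ (W : Pt S.q) : Submodule (S.KK W) ((Mod W.1 → S.KK W) × (Mod W.1 → S.KK W)) :=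
  subOf {p | ∃ z j, App (Mem W.1) (cl W.1 D.J) z j ∧ ev (S.ctx W) z = p.1 ∧ ev (S.ctx W) j = p.2}
    (by
      obtain ⟨z, h1, -⟩ := D.zero_w W
      obtain ⟨j, hj, -⟩ := (D.hJ W).1.2 z h1
      exact ⟨(_, _), z, j, hj, rfl, rfl⟩)
    (by
      rintro a ⟨_, _⟩ ⟨_, _⟩ ⟨z, j, h1, rfl, rfl⟩ ⟨z', j', h2, rfl, rfl⟩
      have m1 := (D.hJ W).1.app_mem h1
      have m2 := (D.hJ W).1.app_mem h2
      obtain ⟨z'', h3, h4⟩ := linf_comb (D.hw W) m1.1 m2.1 a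
      obtain ⟨j'', h5, -⟩ := (D.hJ W).1.2 z'' h3
      refine ⟨z'', j'', h5, h4, ?_⟩
      exact (comb_iff (D.fun_G m1.2) (D.fun_G m2.2) (D.fun_G ((D.hJ W).1.app_mem h5).2)).1
        ((D.hJ W).2.1 a.1 _ _ _ _ _ _ a.2 h1 h2 h5
          ((comb_iff (D.fun_w m1.1) (D.fun_w m2.1) (D.fun_w h3)).2 h4)))

theorem mem_GJ {p q : Mod W.1 → S.KK W} : (p, q) ∈ D.GJ W ↔
    ∃ z j, App (Mem W.1) (cl W.1 D.J) z j ∧ ev (S.ctx W) z = p ∧ ev (S.ctx W) j = q := Iff.rfl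

instance (π ρ : ∀ W : Pt S.q, Mod W.1 → S.KK W) [RepV π] [RepV ρ] :
    Cl fun W => (π W, ρ W) ∈ D.GJ W := by
  simp only [mem_GJ]
  infer_instance

variable {D} {p q : Mod W.1 → S.KK W} {r e : S.KK W}

theorem GJ_bd (h : (p, q) ∈ D.GJ W) {s : Finset ℕ} (hs : Off (ixN S.q) W s p r) (hr : 0 ≤ r) :
    Bd q r := by
  classical
  obtain ⟨z, j, h1, rfl, rfl⟩ := D.mem_GJ.1 h
  have m1 := (D.hJ W).1.app_mem h1
  obtain ⟨z, rfl⟩ := cl_surj W.1 z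
  have : RepV fun (W : Pt S.q) x => if ∃ i ∈ s, x = cl W.1 ((ixN S.q).e i) then
    ev (S.ctx W) (cl W.1 z) x else 0 := ⟨fun _ => inferInstance⟩
  obtain ⟨y, hy⟩ := exists_fun (ixN S.q).A fun (W : Pt S.q) x =>
    if ∃ i ∈ s, x = cl W.1 ((ixN S.q).e i) then ev (S.ctx W) (cl W.1 z) x else 0
  obtain ⟨hy1, hy2⟩ := hy W
  obtain ⟨d, hd1, hd2⟩ := exists_comb hy1 (D.fun_w m1.1) (-1)
  have hd3 : Bd (ev (S.ctx W) d) r := fun x => by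
    by_cases hx : Mem W.1 x (cl W.1 (ixN S.q).A)
    · rw [hd2]
      simp only [Pi.add_apply, Pi.smul_apply, hy2 x hx]
      split_ifs with h2
      · simpa using hr
      · simpa using (hs x hx).resolve_left h2
    · simpa [ev_out hd1 hx] using hr
  have := bd_of (D.fun_G m1.2) (((D.hJ W).2.2 _ j r.1 h1 r.2).2 fun e t he ht => by
    have h3 : t = (r + ⟨e, he.1⟩).1 := (K.add_iff (b := ⟨e, he.1⟩)).1 ht
    refine ⟨cl W.1 y, d, c0_of_off (D.h0 W) hy1 (s := s) fun x hx => ?_,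
      (linf_iff (D.hw W)).2 ⟨hd1, r, hd3⟩,
      (comb_iff (h := S.ctx W) (a := 1) hy1 hd1 (D.fun_w m1.1)).2 (by simp [hd2]),
      h3 ▸ normLe_of hd1 (hd3.mono (le_add_of_nonneg_right (pos_iff.1 he).le))⟩
    rw [hy2 x hx]
    split_ifs with h2
    · exact Or.inl h2
    · simp)
  rwa [abs_of_nonneg hr] at this

theorem GJ_split (h : (p, q) ∈ D.GJ W) (hq : Bd q r) (he : 0 < e) :
    ∃ y, Mem W.1 y (cl W.1 D.c0) ∧ Bd (p - ev (S.ctx W) y) (r + e) ∧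
      (p - ev (S.ctx W) y, q) ∈ D.GJ W := by
  obtain ⟨z, j, h1, rfl, rfl⟩ := D.mem_GJ.1 h
  have m1 := (D.hJ W).1.app_mem h1
  obtain ⟨y, d, h2, h3, h4, h5⟩ := ((D.hJ W).2.2 _ j r.1 h1 r.2).1 (normLe_of (D.fun_G m1.2) hq)
    e.1 _ (pos_iff.2 he) (K.add_spec r e)
  have h6 := (comb_iff (h := S.ctx W) (a := 1) (D.fun_0 h2) (D.fun_w h3) (D.fun_w m1.1)).1 h4
  have h7 := bd_of (D.fun_w h3) h5
  rw [abs_of_nonneg (add_nonneg hq.nonneg he.le)] at h7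
  have h8 : ev (S.ctx W) z - ev (S.ctx W) y = ev (S.ctx W) d := by simp [h6]
  refine ⟨y, h2, h8 ▸ h7, ?_⟩
  have h9 : Mem W.1 y (cl W.1 D.lw) := by
    obtain ⟨-, t, ht⟩ := (linf_iff (D.hw W)).1 m1.1
    refine (linf_iff (D.hw W)).2 ⟨D.fun_0 h2, t + (r + e), ?_⟩
    simpa [h6] using ht.sub h7
  obtain ⟨k, hk, -⟩ := (D.hJ W).1.2 y h9
  have h10 := bd_of (r := (0 : S.KK W)) (D.fun_G ((D.hJ W).1.app_mem hk).2)
    (((D.hJ W).2.2 _ k _ hk (0 : S.KK W).2).2 fun e t he ht => by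
      have h3 : t = (0 + ⟨e, he.1⟩ : S.KK W).1 := (K.add_iff (b := ⟨e, he.1⟩)).1 ht
      obtain ⟨o, ho1, ho2⟩ := D.zero_w W
      exact ⟨y, o, h2, ho1, (comb_iff (h := S.ctx W) (a := 1) (D.fun_0 h2) (D.fun_w ho1)
        (D.fun_0 h2)).2 (by simp [ho2]), h3 ▸ normLe_of (D.fun_w ho1)
          (ho2 ▸ Bd.zero (by simpa using (pos_iff (e := ⟨e, he.1⟩)).1 he |>.le))⟩)
  rw [abs_zero] at h10
  simpa [h10.eq_zero] using (D.GJ W).sub_mem h (D.mem_GJ.2 ⟨y, k, hk, rfl, rfl⟩)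

theorem gen_GJ (π ρ : ∀ W : Pt S.q, Mod W.1 → S.KK W) [RepV π] [RepV ρ]
    (τ ε : ∀ W : Pt S.q, S.KK W) [Rep τ] [Rep ε] : ∀ᶠ W in gen S.q, (π W, ρ W) ∈ D.GJ W →
      Bd (ρ W) (τ W) → 0 < ε W → ∃ s, Off (ixN S.q) W s (π W) (τ W + 2 * ε W) := by
  obtain ⟨y, hy⟩ := maxp fun (W : Pt S.q) y => Mem W.1 y (cl W.1 D.c0) ∧
    Bd (π W - ev (S.ctx W) y) (τ W + ε W)
  filter_upwards [gen_c0 D.h0 (fun W => cl W.1 y) ε] with W h1 h2 h3 h4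
  obtain ⟨h5, h6⟩ := hy W ((GJ_split h2 h3 h4).imp fun _ h => ⟨h.1, h.2.1⟩)
  obtain ⟨s, hs⟩ := h1 ⟨h5, h4⟩
  refine ⟨s, fun x hx => (hs x hx).imp_right fun h7 => ?_⟩
  have h8 := abs_le.1 (h6 x)
  rw [abs_le] at h7 ⊢
  simp only [Pi.sub_apply] at h8
  constructor <;> linarith [h7.1, h7.2, h8.1, h8.2]

theorem GJ_of_mem {z : Mod W.1} (hz : Mem W.1 z (cl W.1 D.lw)) :
    ∃ j, (ev (S.ctx W) z, ev (S.ctx W) j) ∈ D.GJ W := by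
  obtain ⟨j, hj, -⟩ := (D.hJ W).1.2 z hz
  exact ⟨j, D.mem_GJ.2 ⟨z, j, hj, rfl, rfl⟩⟩

theorem GJ_closed (π : ∀ W : Pt S.q, Mod W.1 → S.KK W) [RepV π] (P : Pt S.q → Prop) [Cl P]
    (h : ∀ ε : ℚ, 0 < ε → ∀ W, P W → ∃ z j, (ev (S.ctx W) z, ev (S.ctx W) j) ∈ D.GJ W ∧
      Bd (π W - ev (S.ctx W) j) ε) (W : Pt S.q) (hW : P W) :
    ∃ p, (p, π W) ∈ D.GJ W := by
  have hr : ∀ k : ℕ, (0 : ℚ) < (1 / 2) ^ k := fun k => by positivity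
  choose z hz using fun k : ℕ => maxp fun (W : Pt S.q) z =>
    ∃ j, (ev (S.ctx W) z, ev (S.ctx W) j) ∈ D.GJ W ∧
      Bd (π W - ev (S.ctx W) j) (((1 / 2) ^ k : ℚ) : S.KK W)
  choose j hj using fun k : ℕ => maxp fun (W : Pt S.q) j =>
    (ev (S.ctx W) (cl W.1 (z k)), ev (S.ctx W) j) ∈ D.GJ W ∧
      Bd (π W - ev (S.ctx W) j) (((1 / 2) ^ k : ℚ) : S.KK W)
  have h1 := fun k W hW => hj k W (hz k W (h _ (hr k) W hW))
  choose d hd using fun k : ℕ => maxp fun (W : Pt S.q) d =>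
    (ev (S.ctx W) d, ev (S.ctx W) (cl W.1 (j (k + 1))) - ev (S.ctx W) (cl W.1 (j k))) ∈ D.GJ W ∧
      Bd (ev (S.ctx W) d) (3 * (((1 / 2) ^ k : ℚ) : S.KK W))
  have h2 := fun k W hW => hd k W (by
    have h2 := (h1 k W hW).2.sub (h1 (k + 1) W hW).2
    rw [sub_sub_sub_cancel_left] at h2
    obtain ⟨y, -, h3, h4⟩ := GJ_split ((D.GJ W).sub_mem (h1 (k + 1) W hW).1 (h1 k W hW).1) h2
      (e := (((1 / 2) ^ k : ℚ) : S.KK W)) (by exact_mod_cast hr k)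
    obtain ⟨d, _, -, h5, -⟩ := D.mem_GJ.1 h4
    refine ⟨d, h5 ▸ h4, h5 ▸ h3.mono ?_⟩
    have : (0 : S.KK W) < (1 / 2) ^ k := by positivity
    push_cast
    rw [pow_succ]
    linarith)
  let σ : ℕ → ∀ W : Pt S.q, Mod W.1 → S.KK W := fun k W =>
    ev (S.ctx W) (cl W.1 (z 0)) + ∑ l ∈ Finset.range k, ev (S.ctx W) (cl W.1 (d l))
  have h3 : ∀ k W, P W → (σ k W, ev (S.ctx W) (cl W.1 (j k))) ∈ D.GJ W := by
    intro k W hW
    induction k with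
    | zero => simpa [σ] using (h1 0 W hW).1
    | succ k ih =>
      simpa [σ, Finset.sum_range_succ, add_assoc] using (D.GJ W).add_mem ih (h2 k W hW).1
  have h4 : ∀ k n W, P W → Bd (σ (k + n) W - σ k W)
      (6 * (((1 / 2) ^ k : ℚ) : S.KK W) - 6 * (((1 / 2) ^ (k + n) : ℚ) : S.KK W)) := by
    intro k n W hW
    induction n with
    | zero => simpa using Bd.zero le_rfl
    | succ n ih =>
      have h4 : σ (k + (n + 1)) W - σ k W =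
          σ (k + n) W - σ k W + ev (S.ctx W) (cl W.1 (d (k + n))) := by
        simp only [σ, ← add_assoc, Finset.sum_range_succ]
        abel
      rw [h4]
      refine (ih.add (h2 _ W hW).2).mono ?_
      push_cast
      rw [← add_assoc, pow_succ]
      linarith
  have h5 : ∀ k l W, P W → k ≤ l → Bd (σ l W - σ k W)
      (6 * (((1 / 2) ^ l : ℚ) : S.KK W) + 6 * (((1 / 2) ^ k : ℚ) : S.KK W)) := by
    intro k l W hW hkl
    obtain ⟨n, rfl⟩ := Nat.exists_eq_add_of_le hkl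
    refine (h4 k n W hW).mono ?_
    have : (0 : S.KK W) < (((1 / 2) ^ (k + n) : ℚ) : S.KK W) := by exact_mod_cast hr _
    linarith
  obtain ⟨y, hy⟩ := hyper (ixN S.q).A σ (fun k W => 6 * (((1 / 2) ^ k : ℚ) : S.KK W))
    (fun _ => P) fun k l W hW _ => by
      rcases le_total k l with h | h
      · simpa [add_comm] using (h5 k l W hW h).neg
      · exact h5 l k W hW h
  have h6 : ∀ k W, P W →
      Bd (ev (S.ctx W) (cl W.1 y) - σ k W) (6 * (((1 / 2) ^ k : ℚ) : S.KK W)) := by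
    intro k W hW x
    by_cases hx : Mem W.1 x (cl W.1 (ixN S.q).A)
    · exact (hy W).2 k hW x hx
    · obtain ⟨z', _, h6, h7, -⟩ := D.mem_GJ.1 (h3 k W hW)
      simp [← h7, ev_out (hy W).1 hx, ev_out (D.fun_w ((D.hJ W).1.app_mem h6).1) hx]
  obtain ⟨k, hk⟩ := maxp fun (W : Pt S.q) k => (ev (S.ctx W) (cl W.1 y), ev (S.ctx W) k) ∈ D.GJ W
  have h7 := fun W (hW : P W) => hk W (GJ_of_mem ((linf_iff (D.hw W)).2 ⟨(hy W).1, by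
    obtain ⟨z', _, h7, h8, -⟩ := D.mem_GJ.1 (h3 0 W hW)
    obtain ⟨-, t, ht⟩ := (linf_iff (D.hw W)).1 ((D.hJ W).1.app_mem h7).1
    have h9 := (h6 0 W hW).add (h8 ▸ ht)
    rw [sub_add_cancel] at h9
    exact ⟨_, h9⟩⟩))
  have h8 : π W = ev (S.ctx W) (cl W.1 k) := funext fun x => by
    obtain ⟨n, rfl⟩ := cl_surj W.1 x
    refine sub_eq_zero.1 (abs_nonpos_iff.1 (le_of_small
      (fun W => |π W (cl W.1 n) - ev (S.ctx W) (cl W.1 k) (cl W.1 n)|) (fun _ => 0) (fun _ => 7) P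
      (fun ε hε => Eventually.of_forall fun V hV => ?_) W hW))
    obtain ⟨l, hl⟩ := exists_pow_lt_of_lt_one hε (show (1 / 2 : ℚ) < 1 by norm_num)
    have h8 := GJ_bd ((D.GJ V).sub_mem (h7 V hV) (h3 l V hV)) (s := ∅)
      (fun x _ => Or.inr (h6 l V hV x)) (h6 l V hV).nonneg
    have h9 := (h1 l V hV).2.sub h8 (cl V.1 n)
    have h10 : (((1 / 2) ^ l : ℚ) : S.KK V) < ε := by exact_mod_cast hl
    simp only [Pi.sub_apply, sub_sub_sub_cancel_right] at h9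
    linarith
  exact ⟨_, h8 ▸ h7 W hW⟩

variable (D) in
/-- the null families -/
noncomputable def GC (W : Pt S.q) : Submodule (S.KK W) (Mod W.1 → S.KK W) :=
  subOf {p | ∃ x, Mem W.1 x (cl W.1 D.c1) ∧ ev (S.ctx W) x = p}
    (by
      obtain ⟨z, h1, h2⟩ := exists_zero (S := S) (cl W.1 D.X.A)
      exact ⟨_, z, c0_of_off (D.h1 W) h1 (s := ∅) fun x _ => by simp [h2], rfl⟩)
    (by
      rintro a _ _ ⟨x, h1, rfl⟩ ⟨y, h2, rfl⟩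
      exact c0_comb D.h1 h1 h2 a)

theorem coset {x t : Mod W.1} (h : App (Mem W.1) (cl W.1 D.f) x t) :
    ∃ u, Mem W.1 u (cl W.1 D.lG) ∧ ∀ v, Mem W.1 v t ↔ Mem W.1 v (cl W.1 D.lG) ∧
      ∃ p, (p, ev (S.ctx W) v - ev (S.ctx W) u) ∈ D.GJ W := by
  obtain ⟨u, h1, h2⟩ := (D.hQ W t).1 ((D.hf W).1.app_mem h).2
  refine ⟨u, h1, fun v => (h2 v).trans (and_congr_right fun hv => ⟨?_, ?_⟩)⟩
  · rintro ⟨z, j, h3, h4⟩
    refine ⟨_, D.mem_GJ.2 ⟨z, j, h3, rfl, ?_⟩⟩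
    simp [(comb_iff (h := S.ctx W) (a := 1) (D.fun_G ((D.hJ W).1.app_mem h3).2) (D.fun_G h1)
      (D.fun_G hv)).1 h4]
  · rintro ⟨p, hp⟩
    obtain ⟨z, j, h3, -, h4⟩ := D.mem_GJ.1 hp
    exact ⟨z, j, h3, (comb_iff (h := S.ctx W) (a := 1) (D.fun_G ((D.hJ W).1.app_mem h3).2)
      (D.fun_G h1) (D.fun_G hv)).2 (by simp [h4])⟩

theorem coset_mem {x t u : Mod W.1} (h : App (Mem W.1) (cl W.1 D.f) x t) (hu : Mem W.1 u t) :
    Mem W.1 u (cl W.1 D.lG) := by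
  obtain ⟨_, -, h1⟩ := coset h
  exact ((h1 u).1 hu).1

variable (D) in
/-- the graph of the operator -/
noncomputable def GF (W : Pt S.q) : Submodule (S.KK W) ((Mod W.1 → S.KK W) × (Mod W.1 → S.KK W)) :=
  subOf {p | ∃ x t u, App (Mem W.1) (cl W.1 D.f) x t ∧ Mem W.1 u t ∧ ev (S.ctx W) x = p.1 ∧
      ev (S.ctx W) u = p.2}
    (by
      obtain ⟨x, h1, h2⟩ := (D.GC W).zero_mem
      obtain ⟨t, ht, -⟩ := (D.hf W).1.2 x h1
      obtain ⟨u, hu, -⟩ := D.hC W x t 0 1 ht (h2 ▸ Bd.zero le_rfl) one_pos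
      exact ⟨(_, _), x, t, u, ht, hu, rfl, rfl⟩)
    (by
      rintro a ⟨_, _⟩ ⟨_, _⟩ ⟨x, t, u, h1, h2, rfl, rfl⟩ ⟨x', t', u', h3, h4, rfl, rfl⟩
      have m1 := ((D.hf W).1.app_mem h1).1
      have m2 := ((D.hf W).1.app_mem h3).1
      obtain ⟨x'', h5, h6⟩ := c0_comb D.h1 m1 m2 a
      obtain ⟨t'', h7, -⟩ := (D.hf W).1.2 x'' h5
      obtain ⟨u'', h8, h9⟩ := linf_comb (D.hG W) (coset_mem h1 h2) (coset_mem h3 h4) a
      exact ⟨x'', t'', u'', h7, (D.hf W).2.1 a.1 _ _ _ _ _ _ _ _ _ a.2 h1 h3 h7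
        ((comb_iff (D.fun_1 m1) (D.fun_1 m2) (D.fun_1 h5)).2 h6) h2 h4 h8
        ((comb_iff (D.fun_G (coset_mem h1 h2)) (D.fun_G (coset_mem h3 h4)) (D.fun_G h8)).2 h9),
        h6, h9⟩)

theorem mem_GF : (p, q) ∈ D.GF W ↔ ∃ x t u, App (Mem W.1) (cl W.1 D.f) x t ∧ Mem W.1 u t ∧
    ev (S.ctx W) x = p ∧ ev (S.ctx W) u = q := Iff.rfl

instance (π ρ : ∀ W : Pt S.q, Mod W.1 → S.KK W) [RepV π] [RepV ρ] :
    Cl fun W => (π W, ρ W) ∈ D.GF W := by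
  simp only [mem_GF]
  infer_instance

theorem GF_diff {q' : Mod W.1 → S.KK W} (h : (p, q) ∈ D.GF W) (h' : (p, q') ∈ D.GF W) :
    ∃ z, (z, q - q') ∈ D.GJ W := by
  obtain ⟨x, t, u, h1, h2, rfl, rfl⟩ := mem_GF.1 h
  obtain ⟨x', t', u', h3, h4, h5, rfl⟩ := mem_GF.1 h'
  obtain rfl := fun_ext (D.fun_1 ((D.hf W).1.app_mem h3).1) (D.fun_1 ((D.hf W).1.app_mem h1).1) h5
  obtain rfl := (D.hf W).1.app_unique h1 h3
  obtain ⟨v, -, h6⟩ := coset h1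
  obtain ⟨-, z, hz⟩ := (h6 u).1 h2
  obtain ⟨-, z', hz'⟩ := (h6 u').1 h4
  exact ⟨z - z', by simpa using (D.GJ W).sub_mem hz hz'⟩

theorem GF_sub {z j : Mod W.1 → S.KK W} (h : (p, q) ∈ D.GF W) (h' : (z, j) ∈ D.GJ W) :
    (p, q - j) ∈ D.GF W := by
  obtain ⟨x, t, u, h1, h2, rfl, rfl⟩ := mem_GF.1 h
  obtain ⟨v, -, h6⟩ := coset h1
  obtain ⟨h3, z', hz⟩ := (h6 u).1 h2
  obtain ⟨_, k, h4, -, rfl⟩ := D.mem_GJ.1 h'
  obtain ⟨w, h7, h8⟩ := linf_comb (D.hG W) ((D.hJ W).1.app_mem h4).2 h3 (-1)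
  have h9 : ev (S.ctx W) w = ev (S.ctx W) u - ev (S.ctx W) k := by
    rw [h8, neg_one_smul, neg_add_eq_sub]
  refine mem_GF.2 ⟨x, t, w, h1, (h6 w).2 ⟨h7, z' - z, ?_⟩, rfl, h9⟩
  rw [h9, sub_right_comm]
  exact (D.GJ W).sub_mem hz h'

theorem GF_bd (h : p ∈ D.GC W) (hr : Bd p r) (he : 0 < e) :
    ∃ u, (p, ev (S.ctx W) u) ∈ D.GF W ∧ Bd (ev (S.ctx W) u) (D.C * r + e) := by
  obtain ⟨x, h1, rfl⟩ := h
  obtain ⟨t, ht, -⟩ := (D.hf W).1.2 x h1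
  obtain ⟨u, h2, h3⟩ := D.hC W x t r e ht hr he
  exact ⟨u, mem_GF.2 ⟨x, t, u, ht, h2, rfl, rfl⟩, h3⟩

theorem GF_out (h : (p, q) ∈ D.GF W) {x : Mod W.1} (hx : ¬ Mem W.1 x (cl W.1 D.G)) : q x = 0 := by
  obtain ⟨_, t, u, h1, h2, -, rfl⟩ := mem_GF.1 h
  exact ev_out (D.fun_G (coset_mem h1 h2)) hx

theorem GF_mem {x t u : Mod W.1} (h : (ev (S.ctx W) x, ev (S.ctx W) u) ∈ D.GF W)
    (hu : IsFun (Mem W.1) u (cl W.1 D.G) (clF W.1 S.N).R) (ht : App (Mem W.1) (cl W.1 D.f) x t) :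
    Mem W.1 u t := by
  obtain ⟨x', t', u', h1, h2, h3, h4⟩ := mem_GF.1 h
  obtain rfl := fun_ext (D.fun_1 ((D.hf W).1.app_mem h1).1) (D.fun_1 ((D.hf W).1.app_mem ht).1) h3
  obtain rfl := (D.hf W).1.app_unique h1 ht
  rwa [← fun_ext (D.fun_G (coset_mem h1 h2)) hu h4]

end Data

end Pool.Agent.Lib.MP_c1e359_an
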